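import Pool.Agent.Lib.MP_ca7d12_nt.G.Defs
import Pool.Agent.Lib.MP_ca7d12_nt.T.LevelS
import Pool.Agent.Lib.MP_ca7d12_nt.ExistsUnit
import Pool.Agent.Lib.MP_ca7d12_nt.ExistsLevel

set_option autoImplicit false

namespace Pool.Agent.MP_ca7d12_nt

open NumberField

/-- If `v` is not an integer modulo `p` and `a` is coprime to `p`, then `a v + p y` is not an integer
modulo `p`. -/
private theorem not_int_of_coprime {R : Type*} [CommRing R] (p : ℕ) (a : ℤ) (v y : R)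
    (hv : ∀ (i : ℤ) (w : R), v ≠ (i : R) + (p : R) * w) (ha : IsCoprime a (p : ℤ))
    (i : ℤ) (w : R) : (a : R) * v + (p : R) * y ≠ (i : R) + (p : R) * w := by
  intro hcon
  obtain ⟨s, t, hst⟩ := ha
  have hst' : (s : R) * (a : R) + (t : R) * (p : R) = 1 := by
    have := congrArg (fun z : ℤ => (z : R)) hst
    push_cast at this
    exact this
  refine hv (s * i) ((s : R) * w - (s : R) * y + (t : R) * v) ?_
  push_cast
  linear_combination (s : R) * hcon - v * hst'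

/-- The first three terms of the binomial expansion. -/
private theorem pow_expand {R : Type*} [CommRing R] (x y : R) (n : ℕ) :
    ∃ t : R, (x + y) ^ (n + 2) = x ^ (n + 2) + ((n + 2 : ℕ) : R) * x ^ (n + 1) * y +
      (((n + 2).choose 2 : ℕ) : R) * x ^ n * y ^ 2 + y ^ 3 * t := by
  induction n with
  | zero =>
    refine ⟨0, ?_⟩
    simp
    ring
  | succ n ih =>
    obtain ⟨t, ht⟩ := ih
    have hc : (n + 1 + 2).choose 2 = (n + 2) + (n + 2).choose 2 := by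
      rw [show n + 1 + 2 = (n + 2) + 1 by ring, Nat.choose_succ_succ' (n + 2) 1, Nat.choose_one_right]
    refine ⟨(((n + 2).choose 2 : ℕ) : R) * x ^ n + t * (x + y), ?_⟩
    rw [show (x + y) ^ (n + 1 + 2) = (x + y) ^ (n + 2) * (x + y) by ring, ht, hc]
    push_cast
    ring

/-- The `p`-th power of a unit of exact level `p ^ m`, `m ≥ 1`, has exact level `p ^ (m + 1)`. -/
private theorem step_odd {R : Type*} [CommRing R] (hR : ∀ q : ℤ, IsUnit (q : R) → IsUnit q)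
    (p : ℕ) (hp : p.Prime) (hp3 : 3 ≤ p) (m : ℕ) (hm : 1 ≤ m) (u : Rˣ) (c : ℤ) (v : R)
    (h : (u : R) = (c : R) + ((p ^ m : ℕ) : R) * v)
    (hv : ∀ (i : ℤ) (w : R), v ≠ (i : R) + (p : R) * w) :
    ∃ (u' : Rˣ) (c' : ℤ) (v' : R), (u' : R) = (c' : R) + ((p ^ (m + 1) : ℕ) : R) * v' ∧
      ∀ (i : ℤ) (w : R), v' ≠ (i : R) + (p : R) * w := by
  obtain ⟨n, rfl⟩ : ∃ n, p = n + 2 := ⟨p - 2, by omega⟩
  obtain ⟨m, rfl⟩ : ∃ k, m = k + 1 := ⟨m - 1, by omega⟩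
  set p := n + 2 with hpn
  have hcop : IsCoprime c ((p ^ (m + 1) : ℕ) : ℤ) := by
    refine UnitsA.coprime_of_unit hR c _ (u : R) v u.isUnit ⟨1, ?_⟩
    rw [h]
    push_cast
    ring
  have hcp : IsCoprime c (p : ℤ) := by
    refine hcop.of_isCoprime_of_dvd_right ?_
    exact_mod_cast dvd_pow_self p (Nat.succ_ne_zero m)
  obtain ⟨t, ht⟩ := pow_expand (c : R) (((p ^ (m + 1) : ℕ) : R) * v) n
  rw [← hpn] at ht
  obtain ⟨d, hd⟩ : p ∣ p.choose 2 := hp.dvd_choose_self two_ne_zero (by omega)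
  refine ⟨u ^ p, c ^ p, ((c ^ (n + 1) : ℤ) : R) * v + (p : R) *
    ((d : R) * (c : R) ^ n * (p : R) ^ m * v ^ 2 + (p : R) ^ (2 * m) * v ^ 3 * t), ?_, ?_⟩
  · rw [Units.val_pow_eq_pow_val, h, ht, hd]
    push_cast
    ring
  · intro i w
    exact not_int_of_coprime p (c ^ (n + 1)) v _ hv hcp.pow_left i w

/-- For every prime `p` the units have the wanted form at all large powers of `p`. -/
theorem hasUnit_prime (K : Type*) [Field K] [NumberField K] (hK : Module.finrank ℚ K = 3)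
    (σ : Fin 3 → K →+* ℝ) (hσ : Function.Injective σ) (p : ℕ) (hp : p.Prime) :
    ∃ w : ℕ, ∀ j b : ℕ, HasUnit K (p ^ (w + j)) (p ^ b) := by
  obtain ⟨η₀, hη₀⟩ := exists_unit K hK σ hσ
  have hp0 : (p : ℤ) ≠ 0 := by exact_mod_cast hp.ne_zero
  obtain ⟨η, c, D, v, hD, hpD, hη, hv⟩ := exists_level K η₀ hη₀ ((p : ℤ) ^ 2) (pow_ne_zero 2 hp0)
  have hfin : FiniteMultiplicity (p : ℤ) D := by
    rw [Int.finiteMultiplicity_iff]
    exact ⟨by simpa using hp.ne_one, hD⟩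
  obtain ⟨D', hD', hnd⟩ := hfin.exists_eq_pow_mul_and_not_dvd
  refine ⟨multiplicity (p : ℤ) D, fun j b => ?_⟩
  set w := multiplicity (p : ℤ) D with hw
  have hR : ∀ q : ℤ, IsUnit (q : 𝓞 K) → IsUnit q := isUnit_of_isUnit_intCast K
  obtain ⟨η', c', r, y, h1, -, h3⟩ := levelS hR (p : ℤ) D hp0 hpD η c v hη (p ^ j)
    (pow_ne_zero j hp.ne_zero) (fun q hq hqs => by
      rw [(Nat.prime_dvd_prime_iff_eq hq hp).1 (hq.dvd_of_dvd_pow hqs)])
  have hD'p : IsCoprime D' (p : ℤ) := by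
    have hpp : Prime (p : ℤ) := Nat.prime_iff_prime_int.1 hp
    exact (hpp.coprime_iff_not_dvd.2 hnd).symm
  refine ⟨η', c', ((D' * r : ℤ) : 𝓞 K) * v + (p : 𝓞 K) * ((D' : 𝓞 K) * y), ?_, ?_⟩
  · rw [h1, hD']
    push_cast
    ring
  · intro q hq hqb i w'
    have hqp : q = p := (Nat.prime_dvd_prime_iff_eq hq hp).1 (hq.dvd_of_dvd_pow hqb)
    subst hqp
    exact not_int_of_coprime q (D' * r) v _ (hv q hq) (hD'p.mul_left h3) i w'

/-- If some unit is congruent to an integer modulo `p ^ w`, `w ≥ 1`, but not modulo `p ^ (w + 1)`,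
`p` an odd prime, then the same holds for all the powers `p ^ (w + j)`. -/
theorem hasUnit_odd (K : Type*) [Field K] [NumberField K] (p : ℕ) (hp : p.Prime) (hp3 : 3 ≤ p)
    (w : ℕ) (hw : 1 ≤ w) (h : HasUnit K (p ^ w) p) (j b : ℕ) :
    HasUnit K (p ^ (w + j)) (p ^ b) := by
  have hR : ∀ q : ℤ, IsUnit (q : 𝓞 K) → IsUnit q := isUnit_of_isUnit_intCast K
  have key : ∃ (u : (𝓞 K)ˣ) (c : ℤ) (v : 𝓞 K),
      (u : 𝓞 K) = (c : 𝓞 K) + ((p ^ (w + j) : ℕ) : 𝓞 K) * v ∧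
      ∀ (i : ℤ) (w' : 𝓞 K), v ≠ (i : 𝓞 K) + (p : 𝓞 K) * w' := by
    induction j with
    | zero =>
      obtain ⟨u, c, v, h1, h2⟩ := h
      exact ⟨u, c, v, h1, h2 p hp dvd_rfl⟩
    | succ j ih =>
      obtain ⟨u, c, v, h1, h2⟩ := ih
      exact step_odd hR p hp hp3 (w + j) (by omega) u c v h1 h2
  obtain ⟨u, c, v, h1, h2⟩ := key
  refine ⟨u, c, v, h1, fun q hq hqb => ?_⟩
  have hqp : q = p := (Nat.prime_dvd_prime_iff_eq hq hp).1 (hq.dvd_of_dvd_pow hqb)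
  subst hqp
  exact h2

end Pool.Agent.MP_ca7d12_nt
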