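import Pool.Agent.Lib.MP_ca7d12_nt.G.OddA

set_option autoImplicit false

namespace Pool.Agent.MP_ca7d12_nt

open NumberField

/-- If `g` in `I` is outside `Q I` for all the primes `Q` containing `n` then `g` generates `I`
modulo `n I`. -/
theorem gen_of_avoid (K : Type*) [Field K] [NumberField K] (I : Ideal (𝓞 K)) (hI : I ≠ ⊥)
    (n : ℕ) (hn : n ≠ 0) (g : 𝓞 K) (hg : g ∈ I)
    (hav : ∀ Q : Ideal (𝓞 K), Q.IsPrime → (n : 𝓞 K) ∈ Q → g ∉ Q * I) :
    ∀ y ∈ I, ∃ z : 𝓞 K, ∃ y' ∈ I, y = g * z + (n : 𝓞 K) * y' := by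
  have hle : Ideal.span {g} ⊔ Ideal.span {(n : 𝓞 K)} * I ≤ I := by
    refine sup_le ?_ Ideal.mul_le_right
    rw [Ideal.span_singleton_le_iff_mem]
    exact hg
  have hJ : Ideal.span {g} ⊔ Ideal.span {(n : 𝓞 K)} * I = I := by
    obtain ⟨A, hA⟩ := Ideal.dvd_iff_le.2 hle
    by_contra hne
    have hAtop : A ≠ ⊤ := by
      rintro rfl
      rw [Ideal.mul_top] at hA
      exact hne hA
    obtain ⟨Q, hQmax, hAQ⟩ := Ideal.exists_le_maximal A hAtop
    have h1 : Ideal.span {(n : 𝓞 K)} ≤ A := by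
      have h2 : I * Ideal.span {(n : 𝓞 K)} ≤ I * A := by
        rw [← hA, mul_comm]
        exact le_sup_right
      have h3 : I * A ∣ I * Ideal.span {(n : 𝓞 K)} := Ideal.dvd_iff_le.2 h2
      exact Ideal.dvd_iff_le.1 ((mul_dvd_mul_iff_left hI).1 h3)
    have hnQ : (n : 𝓞 K) ∈ Q := hAQ (h1 (Ideal.mem_span_singleton_self _))
    refine hav Q hQmax.isPrime hnQ ?_
    have hgJ : g ∈ I * A := by
      rw [← hA]
      exact Ideal.mem_sup_left (Ideal.mem_span_singleton_self _)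
    rw [mul_comm]
    exact Ideal.mul_mono_right hAQ hgJ
  intro y hy
  rw [← hJ] at hy
  obtain ⟨u, hu, v, hv, rfl⟩ := Submodule.mem_sup.1 hy
  obtain ⟨z, rfl⟩ := Ideal.mem_span_singleton'.1 hu
  obtain ⟨y', hy', rfl⟩ := Ideal.mem_span_singleton_mul.1 hv
  exact ⟨z, y', hy', by ring⟩

private theorem exists_prime_mem {R : Type*} [CommRing R] (Q : Ideal R) (hQ : Q.IsPrime) :
    ∀ n : ℕ, n ≠ 0 → (n : R) ∈ Q → ∃ p : ℕ, p.Prime ∧ p ∣ n ∧ (p : R) ∈ Q := by
  intro n
  induction n using Nat.strong_induction_on with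
  | _ n ih =>
    intro hn hmem
    by_cases h1 : n = 1
    · subst h1
      rw [Nat.cast_one] at hmem
      exact absurd ((Ideal.eq_top_iff_one Q).2 hmem) hQ.ne_top
    · have hp := Nat.minFac_prime h1
      obtain ⟨m, hm⟩ := Nat.minFac_dvd n
      have hm0 : m ≠ 0 := by
        rintro rfl
        rw [mul_zero] at hm
        exact hn hm
      have hcast : (n : R) = (n.minFac : R) * (m : R) := by
        conv_lhs => rw [hm]
        push_cast
        rfl
      rw [hcast] at hmem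
      rcases hQ.mem_or_mem hmem with h | h
      · exact ⟨n.minFac, hp, Nat.minFac_dvd n, h⟩
      · have hlt : m < n := by
          have h2 := hp.two_le
          have : 0 < m := Nat.pos_of_ne_zero hm0
          calc m < n.minFac * m := by nlinarith
            _ = n := hm.symm
        obtain ⟨p, hp', hpm, hpQ⟩ := ih m hlt hm0 h
        exact ⟨p, hp', hpm.trans ⟨n.minFac, by rw [mul_comm]; exact hm⟩, hpQ⟩

/-- A subgroup which generates `I` and contains `n I`, `n` odd, contains a generator of `I` modulo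
`n I`. -/
theorem gen_of_odd (K : Type*) [Field K] [NumberField K] (hK : Module.finrank ℚ K = 3)
    (I : Ideal (𝓞 K)) (hI : I ≠ ⊥) (n : ℕ) (hn : Odd n) (M : AddSubgroup (𝓞 K))
    (hM : Ideal.span (M : Set (𝓞 K)) = I) :
    ∃ g ∈ M, ∀ y ∈ I, ∃ z : 𝓞 K, ∃ y' ∈ I, y = g * z + (n : 𝓞 K) * y' := by
  classical
  have hn0 : n ≠ 0 := by
    rintro rfl
    exact absurd hn (by decide)
  have hMI : ∀ x ∈ M, x ∈ I := by
    intro x hx
    rw [← hM]
    exact Ideal.subset_span hx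
  have hex : ∀ p ∈ n.primeFactors, ∃ g ∈ M,
      ∀ Q : Ideal (𝓞 K), Q.IsPrime → (p : 𝓞 K) ∈ Q → g ∉ Q * I := by
    intro p hp
    have hpp := Nat.prime_of_mem_primeFactors hp
    have hpn := Nat.dvd_of_mem_primeFactors hp
    have hp2 : p ≠ 2 := by
      rintro rfl
      exact (Nat.not_even_iff_odd.2 hn) (even_iff_two_dvd.2 hpn)
    have hp3 : 3 ≤ p := by
      have := hpp.two_le
      omega
    exact avoid_odd K hK I hI p hpp hp3 M hM
  choose! G hGM hG using hex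
  let c : ℕ → ℕ := fun p => ∏ q ∈ n.primeFactors.erase p, q
  have hg : ∑ p ∈ n.primeFactors, c p • G p ∈ M :=
    M.sum_mem (fun p hp => M.nsmul_mem (hGM p hp) _)
  refine ⟨∑ p ∈ n.primeFactors, c p • G p, hg, ?_⟩
  refine gen_of_avoid K I hI n hn0 _ (hMI _ hg) ?_
  intro Q hQ hnQ hmem
  obtain ⟨p, hpp, hpn, hpQ⟩ := exists_prime_mem Q hQ n hn0 hnQ
  have hpS : p ∈ n.primeFactors := Nat.mem_primeFactors.2 ⟨hpp, hpn, hn0⟩
  have hrest : ∑ q ∈ n.primeFactors.erase p, c q • G q ∈ Q * I := by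
    refine Submodule.sum_mem _ (fun q hq => ?_)
    have hqS := Finset.mem_of_mem_erase hq
    have hqp := Finset.ne_of_mem_erase hq
    have hdvd : p ∣ c q := Finset.dvd_prod_of_mem _ (Finset.mem_erase.2 ⟨hqp.symm, hpS⟩)
    obtain ⟨m, hm⟩ := hdvd
    have : c q • G q = (p : 𝓞 K) * ((m : 𝓞 K) * G q) := by
      rw [hm, nsmul_eq_mul]
      push_cast
      ring
    rw [this]
    exact Ideal.mul_mem_mul hpQ (I.mul_mem_left _ (hMI _ (hGM q hqS)))
  have hcp : c p • G p ∈ Q * I := by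
    have h := (Ideal.add_mem_iff_left (Q * I) hrest).1
      (by rw [Finset.add_sum_erase _ (fun q => c q • G q) hpS]; exact hmem)
    exact h
  have hcop : Nat.Coprime (c p) p := by
    refine Nat.Coprime.prod_left (fun q hq => ?_)
    exact (Nat.coprime_primes (Nat.prime_of_mem_primeFactors (Finset.mem_of_mem_erase hq)) hpp).2
      (Finset.ne_of_mem_erase hq)
  obtain ⟨a, b, hab⟩ := Nat.isCoprime_iff_coprime.2 hcop
  refine hG p hpS Q hQ hpQ ?_
  have hab' : (a : 𝓞 K) * (c p : 𝓞 K) + (b : 𝓞 K) * (p : 𝓞 K) = 1 := by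
    exact_mod_cast congrArg (fun t : ℤ => (t : 𝓞 K)) hab
  have hfin : G p = (a : 𝓞 K) * (c p • G p) + (p : 𝓞 K) * ((b : 𝓞 K) * G p) := by
    rw [nsmul_eq_mul]
    linear_combination (-(G p)) * hab'
  rw [hfin]
  exact (Q * I).add_mem ((Q * I).mul_mem_left _ hcp)
    (Ideal.mul_mem_mul hpQ (I.mul_mem_left _ (hMI _ (hGM p hpS))))

end Pool.Agent.MP_ca7d12_nt
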