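import Mathlib

set_option autoImplicit false

namespace Pool.Agent.MP_ca7d12_nt

/-- `C ^ ω(n)` is smaller than every power of `n`. -/
theorem omega_bound (C : ℝ) (hC : 1 ≤ C) (δ : ℝ) (hδ : 0 < δ) :
    ∃ C' : ℝ, 0 < C' ∧ ∀ n : ℕ, n ≠ 0 → C ^ n.primeFactors.card ≤ C' * (n : ℝ) ^ δ := by
  have hC0 : 0 < C := by linarith
  obtain ⟨P, hP⟩ : ∃ P : ℕ, C ≤ (P : ℝ) ^ δ := by
    refine ⟨⌈C ^ (1 / δ)⌉₊, ?_⟩
    have h1 : (C ^ (1 / δ)) ^ δ = C := by
      rw [← Real.rpow_mul hC0.le, one_div, inv_mul_cancel₀ hδ.ne', Real.rpow_one]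
    calc C = (C ^ (1 / δ)) ^ δ := h1.symm
      _ ≤ _ := Real.rpow_le_rpow (Real.rpow_nonneg hC0.le _) (Nat.le_ceil _) hδ.le
  refine ⟨C ^ P, by positivity, fun n hn => ?_⟩
  have h1 : ∀ p ∈ n.primeFactors, C ≤ (if p < P then C else 1) * (p : ℝ) ^ δ := by
    intro p hp
    have hp1 : (1 : ℝ) ≤ p := by exact_mod_cast (Nat.prime_of_mem_primeFactors hp).one_le
    split_ifs with h
    · exact le_mul_of_one_le_right hC0.le (Real.one_le_rpow hp1 hδ.le)
    · rw [one_mul]
      refine hP.trans (Real.rpow_le_rpow (by positivity) ?_ hδ.le)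
      exact_mod_cast not_lt.1 h
  calc C ^ n.primeFactors.card = ∏ p ∈ n.primeFactors, C := by rw [Finset.prod_const]
    _ ≤ ∏ p ∈ n.primeFactors, ((if p < P then C else 1) * (p : ℝ) ^ δ) :=
        Finset.prod_le_prod (fun _ _ => hC0.le) h1
    _ = (∏ p ∈ n.primeFactors, if p < P then C else 1) * ∏ p ∈ n.primeFactors, (p : ℝ) ^ δ :=
        Finset.prod_mul_distrib
    _ ≤ C ^ P * (n : ℝ) ^ δ := by
        refine mul_le_mul ?_ ?_ (Finset.prod_nonneg fun p _ => by positivity) (by positivity)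
        · rw [← Finset.prod_filter, Finset.prod_const]
          refine pow_le_pow_right₀ hC ?_
          calc (n.primeFactors.filter (· < P)).card ≤ (Finset.range P).card := by
                refine Finset.card_le_card fun p hp => ?_
                rw [Finset.mem_range]
                exact (Finset.mem_filter.1 hp).2
            _ = P := Finset.card_range P
        · rw [Real.finsetProd_rpow _ _ (fun p _ => by positivity)]
          refine Real.rpow_le_rpow (Finset.prod_nonneg fun p _ => by positivity) ?_ hδ.le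
          have h2 : ∏ p ∈ n.primeFactors, p ≤ n :=
            Nat.le_of_dvd (Nat.pos_of_ne_zero hn) (Nat.prod_primeFactors_dvd n)
          calc ∏ p ∈ n.primeFactors, (p : ℝ) = ((∏ p ∈ n.primeFactors, p : ℕ) : ℝ) := by
                push_cast; rfl
            _ ≤ n := by exact_mod_cast h2

end Pool.Agent.MP_ca7d12_nt
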