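import Pool.Agent.Lib.MP_ca7d12_nt.G.KeyG
import Pool.Agent.Lib.MP_ca7d12_nt.G.OddB
import Pool.Agent.Lib.MP_ca7d12_nt.G.OmegaG
import Pool.Agent.Lib.MP_ca7d12_nt.G.Exist
import Pool.Agent.Lib.MP_ca7d12_nt.W.MainW
import Pool.Agent.Lib.MP_ca7d12_nt.W.CycIdx
import Pool.Agent.Lib.MP_ca7d12_nt.T.MainT

set_option autoImplicit false

namespace Pool.Agent.MP_ca7d12_nt

open NumberField

namespace MainG

variable {K : Type*} [Field K] [NumberField K]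

open MainT in
theorem key_mul (α : Fin 3 → K) (n : ℕ) (I : Ideal (𝓞 K)) (lam : K) (α' : Fin 3 → 𝓞 K)
    (hα' : ∀ j, (α' j : K) = lam * α j)
    (hMI : ∀ x ∈ AddSubgroup.closure (Set.range α'), x ∈ I) :
    ∀ w ∈ Submodule.span ℤ {y : K | ∃ z : 𝓞 K,
        ∃ x' ∈ Submodule.span ℤ (Set.range α), y = (n : K) * (z : K) * x'},
        ∃ y ∈ I, lam * w = (n : K) * (y : K) := by
  intro w hw
  induction hw using Submodule.span_induction with
  | mem w hw =>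
    obtain ⟨z, x', hx', rfl⟩ := hw
    obtain ⟨x'', hx'', hxx''⟩ := up α α' lam hα' x' hx'
    refine ⟨z * x'', I.mul_mem_left _ (hMI _ hx''), ?_⟩
    rw [coe_mul', hxx'']
    ring
  | zero => exact ⟨0, I.zero_mem, by simp⟩
  | add x y _ _ hx hy =>
    obtain ⟨x₀, hx₀, hx⟩ := hx
    obtain ⟨y₀, hy₀, hy⟩ := hy
    exact ⟨x₀ + y₀, I.add_mem hx₀ hy₀, by rw [coe_add', mul_add, hx, hy]; ring⟩
  | smul c x _ hx =>
    obtain ⟨x₀, hx₀, hx⟩ := hx
    refine ⟨(c : 𝓞 K) * x₀, I.mul_mem_left _ hx₀, ?_⟩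
    rw [zsmul_eq_mul, coe_mul', coe_int]
    linear_combination (c : K) * hx

open MainT in
/-- A local generator of the lattice gives a generator of `I` modulo `n I`. -/
theorem gen_of_locGen (α : Fin 3 → K) (n : ℕ) (h : LocGen K α n) (I : Ideal (𝓞 K)) (lam : K)
    (α' : Fin 3 → 𝓞 K) (hα' : ∀ j, (α' j : K) = lam * α j)
    (hspan : Ideal.span (Set.range α') = I) :
    ∃ g ∈ AddSubgroup.closure (Set.range α'), ∀ y ∈ I, ∃ z : 𝓞 K, ∃ y' ∈ I,
      y = g * z + (n : 𝓞 K) * y' := by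
  obtain ⟨hst, g₀, hg₀, hgen⟩ := h
  obtain ⟨g, hgM, hg⟩ := up α α' lam hα' g₀ hg₀
  refine ⟨g, hgM, ?_⟩
  have hMI : ∀ x ∈ AddSubgroup.closure (Set.range α'), x ∈ I := fun x hx =>
    MainW.closure_le α' I hspan hx
  have hj : ∀ j, ∃ z : 𝓞 K, ∃ y' ∈ I, α' j = g * z + (n : 𝓞 K) * y' := by
    intro j
    obtain ⟨w, hw⟩ := hgen (α j) (Submodule.subset_span ⟨j, rfl⟩)
    obtain ⟨y', hy', hyy⟩ := key_mul α n I lam α' hα' hMI _ hw
    refine ⟨w, y', hy', ?_⟩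
    apply RingOfIntegers.ext
    rw [coe_add', coe_mul', coe_mul', coe_nat, hα' j, hg]
    linear_combination hyy
  intro y hy
  rw [← hspan] at hy
  induction hy using Submodule.span_induction with
  | mem y hy =>
    obtain ⟨j, rfl⟩ := hy
    exact hj j
  | zero => exact ⟨0, 0, I.zero_mem, by ring⟩
  | add x y _ _ hx hy =>
    obtain ⟨z, x', hx', hxx⟩ := hx
    obtain ⟨z', y', hy', hyy⟩ := hy
    exact ⟨z + z', x' + y', I.add_mem hx' hy', by rw [hxx, hyy]; ring⟩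
  | smul c x _ hx =>
    obtain ⟨z, x', hx', hxx⟩ := hx
    exact ⟨c * z, c * x', I.mul_mem_left _ hx', by rw [smul_eq_mul, hxx]; ring⟩

/-- Cyclic modules have a local generator. -/
theorem locGen_of_cyclic (α : Fin 3 → K) (n : ℕ) (h : CyclicModulo K α n) : LocGen K α n := by
  obtain ⟨hst, g, hg, hcyc⟩ := h
  refine ⟨hst, g, hg, fun x hx => ?_⟩
  obtain ⟨c, hc⟩ := hcyc x hx
  exact ⟨(c : 𝓞 K), by rw [MainT.coe_int]; exact hc⟩

end MainG

open MainG MainW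

/-- The bound for all conductors. -/
theorem bound_G (K : Type*) [Field K] [NumberField K] (hK : Module.finrank ℚ K = 3)
    (σ : Fin 3 → K →+* ℝ) (hσ : Function.Injective σ) :
    ∃ C : ℝ, 1 ≤ C ∧ ∀ (α : Fin 3 → K) (n f : ℕ), LinearIndependent ℚ α → n ≠ 0 → f ^ 2 ∣ n →
      HasUnit K (n / f) f → ((Odd n ∧ StableUnder K α n) ∨ LocGen K α n) →
      markovMin (fun i j => σ i (α j)) * (latticeIndex K α : ℝ) * (f : ℝ) ≤
        C ^ (1 + n.primeFactors.card) * (n : ℝ) ^ 2 := by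
  obtain ⟨L, hL0, hL⟩ := exists_reduction K
  obtain ⟨δ, hδ, hdet⟩ := det_eq_index K hK σ hσ
  obtain ⟨C, hC1, hkey⟩ := exists_small_G K hK σ hσ
  set A : ℝ := ∑ I ∈ L, (Ideal.absNorm I : ℝ) with hA
  have hA0 : 0 ≤ A := Finset.sum_nonneg fun I _ => Nat.cast_nonneg _
  refine ⟨C * (A / δ + 1), ?_, ?_⟩
  · have h1 : 0 ≤ A / δ := by positivity
    nlinarith
  intro α n f hα hn hfn hun hcase
  have hst : StableUnder K α n := by
    rcases hcase with h | h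
    · exact h.2
    · exact h.1
  obtain ⟨I, hI, lam, α', hlam, hα', hspan, hclo⟩ := hL α n hα hst
  have hMI : ∀ x ∈ AddSubgroup.closure (Set.range α'), x ∈ I := fun x hx =>
    closure_le α' I hspan hx
  have hgen : ∃ g ∈ AddSubgroup.closure (Set.range α'), ∀ y ∈ I, ∃ z : 𝓞 K, ∃ y' ∈ I,
      y = g * z + (n : 𝓞 K) * y' := by
    rcases hcase with h | h
    · exact gen_of_odd K hK I (hL0 I hI) n h.1 _ (MainT.span_closure I α' hspan)
    · exact gen_of_locGen α n h I lam α' hα' hspan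
  obtain ⟨x, hxM, hx0, hxN⟩ := hkey n f hn hfn hun I (hL0 I hI) _ hMI hclo hgen
  have h1 := value_bound hK σ hσ δ hδ hdet α lam hlam α' hα' I (hL0 I hI) hspan x hxM hx0
  have hIA : (Ideal.absNorm I : ℝ) ≤ A :=
    Finset.single_le_sum (f := fun I => (Ideal.absNorm I : ℝ)) (fun J _ => Nat.cast_nonneg _) hI
  set ω : ℕ := n.primeFactors.card with hω
  have hAδ : 0 ≤ A / δ := by positivity
  have hpow : A / δ ≤ (A / δ + 1) ^ (1 + ω) := by
    have h2 : (1 : ℝ) ≤ A / δ + 1 := by linarith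
    calc A / δ ≤ A / δ + 1 := by linarith
      _ = (A / δ + 1) ^ 1 := (pow_one _).symm
      _ ≤ (A / δ + 1) ^ (1 + ω) := pow_le_pow_right₀ h2 (by omega)
  have hCp : (0 : ℝ) ≤ C ^ (1 + ω) := by positivity
  calc markovMin (fun i j => σ i (α j)) * (latticeIndex K α : ℝ) * (f : ℝ)
      ≤ ((|Algebra.norm ℤ x| : ℤ) : ℝ) / δ * (f : ℝ) :=
        mul_le_mul_of_nonneg_right h1 (Nat.cast_nonneg _)
    _ = ((|Algebra.norm ℤ x| : ℤ) : ℝ) * (f : ℝ) / δ := by ring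
    _ ≤ C ^ (1 + ω) * (Ideal.absNorm I : ℝ) * (n : ℝ) ^ 2 / δ := by gcongr
    _ ≤ C ^ (1 + ω) * A * (n : ℝ) ^ 2 / δ := by gcongr
    _ = C ^ (1 + ω) * (A / δ) * (n : ℝ) ^ 2 := by ring
    _ ≤ C ^ (1 + ω) * (A / δ + 1) ^ (1 + ω) * (n : ℝ) ^ 2 := by gcongr
    _ = (C * (A / δ + 1)) ^ (1 + ω) * (n : ℝ) ^ 2 := by rw [mul_pow]

/-- Finiteness for all conductors with a large square part. -/
theorem finite_G (K : Type*) [Field K] [NumberField K] (hK : Module.finrank ℚ K = 3)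
    (σ : Fin 3 → K →+* ℝ) (hσ : Function.Injective σ) (δ ε : ℝ) (hδ : 0 < δ) (hε : 0 < ε) :
    {m : ℝ | ∃ (α : Fin 3 → K) (n f : ℕ), LinearIndependent ℚ α ∧ n ≠ 0 ∧ f ^ 2 ∣ n ∧
      HasUnit K (n / f) f ∧ ((Odd n ∧ StableUnder K α n) ∨ LocGen K α n) ∧
      (n : ℝ) ^ (2 + δ) ≤ (latticeIndex K α : ℝ) * (f : ℝ) ∧
      m = markovMin (fun i j => σ i (α j)) ∧ ε ≤ m}.Finite := by
  obtain ⟨C, hC1, hC⟩ := bound_G K hK σ hσ
  obtain ⟨C', hC'0, hC'⟩ := omega_bound C hC1 (δ / 2) (by linarith)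
  set D : ℝ := C * C' / ε with hD
  have hD0 : 0 < D := by positivity
  set N₀ : ℝ := D ^ (2 / δ) with hN₀
  set B : ℕ := ⌊D * N₀ ^ (2 + δ / 2)⌋₊ with hB
  obtain ⟨-, hV⟩ := finite_of_index K hK σ hσ B
  refine (hV ε hε).subset ?_
  rintro m ⟨α, n, f, hα, hn, hfn, hun, hcase, hidx, hm, hεm⟩
  have hst : StableUnder K α n := by
    rcases hcase with h | h
    · exact h.2
    · exact h.1
  refine ⟨α, n, hα, hn, hst, ?_, hm, hεm⟩
  have hn0 : (0 : ℝ) < (n : ℝ) := by exact_mod_cast Nat.pos_of_ne_zero hn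
  have hf1 : (1 : ℝ) ≤ (f : ℝ) := by
    have : f ≠ 0 := by
      rintro rfl
      exact hn (by simpa using hfn)
    exact_mod_cast Nat.one_le_iff_ne_zero.mpr this
  have h1 := hC α n f hα hn hfn hun hcase
  have h2 : C ^ (1 + n.primeFactors.card) ≤ C * (C' * (n : ℝ) ^ (δ / 2)) := by
    rw [pow_add, pow_one]
    exact mul_le_mul_of_nonneg_left (hC' n hn) (by linarith)
  have h3 : ε * ((latticeIndex K α : ℝ) * (f : ℝ)) ≤ C * (C' * (n : ℝ) ^ (δ / 2)) * (n : ℝ) ^ 2 := by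
    calc ε * ((latticeIndex K α : ℝ) * (f : ℝ)) ≤
          markovMin (fun i j => σ i (α j)) * ((latticeIndex K α : ℝ) * (f : ℝ)) :=
          mul_le_mul_of_nonneg_right (hm ▸ hεm) (by positivity)
      _ = markovMin (fun i j => σ i (α j)) * (latticeIndex K α : ℝ) * (f : ℝ) := by ring
      _ ≤ C ^ (1 + n.primeFactors.card) * (n : ℝ) ^ 2 := h1
      _ ≤ _ := mul_le_mul_of_nonneg_right h2 (by positivity)
  have h4 : (n : ℝ) ^ (δ / 2) * (n : ℝ) ^ 2 = (n : ℝ) ^ (2 + δ / 2) := by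
    rw [← Real.rpow_natCast (n : ℝ) 2, ← Real.rpow_add hn0]
    congr 1
    push_cast
    ring
  have h5 : (latticeIndex K α : ℝ) * (f : ℝ) ≤ D * (n : ℝ) ^ (2 + δ / 2) := by
    rw [hD, ← h4, div_mul_eq_mul_div, le_div_iff₀ hε]
    linarith
  have h6 : (n : ℝ) ^ (δ / 2) ≤ D := by
    have h7 : (n : ℝ) ^ (2 + δ / 2) * (n : ℝ) ^ (δ / 2) ≤ (n : ℝ) ^ (2 + δ / 2) * D := by
      rw [← Real.rpow_add hn0]
      calc (n : ℝ) ^ (2 + δ / 2 + δ / 2) = (n : ℝ) ^ (2 + δ) := by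
            congr 1
            ring
        _ ≤ (latticeIndex K α : ℝ) * (f : ℝ) := hidx
        _ ≤ D * (n : ℝ) ^ (2 + δ / 2) := h5
        _ = (n : ℝ) ^ (2 + δ / 2) * D := mul_comm _ _
    exact le_of_mul_le_mul_left h7 (by positivity)
  have h8 : (n : ℝ) ≤ N₀ := by
    rw [hN₀]
    calc (n : ℝ) = ((n : ℝ) ^ (δ / 2)) ^ (2 / δ) := by
          rw [← Real.rpow_mul hn0.le]
          have : δ / 2 * (2 / δ) = 1 := by field_simp
          rw [this, Real.rpow_one]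
      _ ≤ D ^ (2 / δ) := Real.rpow_le_rpow (by positivity) h6 (by positivity)
  apply Nat.le_floor
  calc (latticeIndex K α : ℝ) = (latticeIndex K α : ℝ) * 1 := (mul_one _).symm
    _ ≤ (latticeIndex K α : ℝ) * (f : ℝ) :=
        mul_le_mul_of_nonneg_left hf1 (Nat.cast_nonneg _)
    _ ≤ D * (n : ℝ) ^ (2 + δ / 2) := h5
    _ ≤ D * N₀ ^ (2 + δ / 2) :=
        mul_le_mul_of_nonneg_left (Real.rpow_le_rpow hn0.le h8 (by positivity)) hD0.le

end Pool.Agent.MP_ca7d12_nt
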