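import Pool.Agent.Lib.MP_ca7d12_nt.G.GenAny
import Pool.Agent.Lib.MP_ca7d12_nt.G.MainG

set_option autoImplicit false

namespace Pool.Agent.MP_ca7d12_nt

open NumberField MainG MainW

/-- Every subgroup generating `I` and containing `n I` contains a subgroup of the same kind, for an
ideal of almost the same norm, which has a local generator. -/
theorem reduce_any (K : Type*) [Field K] [NumberField K] (hK : Module.finrank ℚ K = 3)
    (I : Ideal (𝓞 K)) (hI : I ≠ ⊥) (n : ℕ) (hn : n ≠ 0) (M : AddSubgroup (𝓞 K))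
    (hM : Ideal.span (M : Set (𝓞 K)) = I) (hnM : ∀ y ∈ I, (n : 𝓞 K) * y ∈ M) :
    ∃ (I' : Ideal (𝓞 K)) (M' : AddSubgroup (𝓞 K)), M' ≤ M ∧ I' ≠ ⊥ ∧
      Ideal.absNorm I' ≤ 512 * Ideal.absNorm I ∧ (∀ x ∈ M', x ∈ I') ∧
      (∀ y ∈ I', (n : 𝓞 K) * y ∈ M') ∧
      (∃ g ∈ M', ∀ y ∈ I', ∃ z : 𝓞 K, ∃ y' ∈ I', y = g * z + (n : 𝓞 K) * y') := by
  obtain ⟨g, hg, I', hle, h8, hgI', hgen⟩ := gen_any K hK I hI n hn M hM
  obtain ⟨h1, h2⟩ := absNorm_between K hK I I' hI h8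
  refine ⟨I', M ⊓ Submodule.toAddSubgroup I', inf_le_left, h1, h2, fun x hx => hx.2,
    fun y hy => ⟨hnM y (hle hy), I'.mul_mem_left _ hy⟩, g, ⟨hg, hgI'⟩, hgen⟩

/-- The bound for all conductors with a large square divisor and all lattices. -/
theorem bound_G_all (K : Type*) [Field K] [NumberField K] (hK : Module.finrank ℚ K = 3)
    (σ : Fin 3 → K →+* ℝ) (hσ : Function.Injective σ) :
    ∃ C : ℝ, 1 ≤ C ∧ ∀ (α : Fin 3 → K) (n f : ℕ), LinearIndependent ℚ α → n ≠ 0 → f ^ 2 ∣ n →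
      HasUnit K (n / f) f → StableUnder K α n →
      markovMin (fun i j => σ i (α j)) * (latticeIndex K α : ℝ) * (f : ℝ) ≤
        C ^ (1 + n.primeFactors.card) * (n : ℝ) ^ 2 := by
  obtain ⟨L, hL0, hL⟩ := exists_reduction K
  obtain ⟨δ, hδ, hdet⟩ := det_eq_index K hK σ hσ
  obtain ⟨C, hC1, hkey⟩ := exists_small_G K hK σ hσ
  set A : ℝ := 512 * ∑ I ∈ L, (Ideal.absNorm I : ℝ) with hA
  have hA0 : 0 ≤ A := mul_nonneg (by norm_num) (Finset.sum_nonneg fun I _ => Nat.cast_nonneg _)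
  refine ⟨C * (A / δ + 1), ?_, ?_⟩
  · have h1 : 0 ≤ A / δ := by positivity
    nlinarith
  intro α n f hα hn hfn hun hst
  obtain ⟨I, hI, lam, α', hlam, hα', hspan, hclo⟩ := hL α n hα hst
  obtain ⟨I', M', hMM, hI'0, hI'N, hMI, hnM, hgen⟩ := reduce_any K hK I (hL0 I hI) n hn _
    (MainT.span_closure I α' hspan) hclo
  obtain ⟨x, hxM, hx0, hxN⟩ := hkey n f hn hfn hun I' hI'0 M' hMI hnM hgen
  have h1 := value_bound hK σ hσ δ hδ hdet α lam hlam α' hα' I (hL0 I hI) hspan x (hMM hxM) hx0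
  have hIA : (Ideal.absNorm I' : ℝ) ≤ A := by
    have h2 : (Ideal.absNorm I : ℝ) ≤ ∑ I ∈ L, (Ideal.absNorm I : ℝ) :=
      Finset.single_le_sum (f := fun I => (Ideal.absNorm I : ℝ)) (fun J _ => Nat.cast_nonneg _) hI
    have h3 : (Ideal.absNorm I' : ℝ) ≤ 512 * (Ideal.absNorm I : ℝ) := by exact_mod_cast hI'N
    rw [hA]
    linarith
  set ω : ℕ := n.primeFactors.card with hω
  have hAδ : 0 ≤ A / δ := by positivity
  have hpow : A / δ ≤ (A / δ + 1) ^ (1 + ω) := by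
    have h2 : (1 : ℝ) ≤ A / δ + 1 := by linarith
    calc A / δ ≤ A / δ + 1 := by linarith
      _ = (A / δ + 1) ^ 1 := (pow_one _).symm
      _ ≤ (A / δ + 1) ^ (1 + ω) := pow_le_pow_right₀ h2 (by omega)
  have hCp : (0 : ℝ) ≤ C ^ (1 + ω) := by positivity
  calc markovMin (fun i j => σ i (α j)) * (latticeIndex K α : ℝ) * (f : ℝ)
      ≤ ((|Algebra.norm ℤ x| : ℤ) : ℝ) / δ * (f : ℝ) :=
        mul_le_mul_of_nonneg_right h1 (Nat.cast_nonneg _)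
    _ = ((|Algebra.norm ℤ x| : ℤ) : ℝ) * (f : ℝ) / δ := by ring
    _ ≤ C ^ (1 + ω) * (Ideal.absNorm I' : ℝ) * (n : ℝ) ^ 2 / δ := by gcongr
    _ ≤ C ^ (1 + ω) * A * (n : ℝ) ^ 2 / δ := by gcongr
    _ = C ^ (1 + ω) * (A / δ) * (n : ℝ) ^ 2 := by ring
    _ ≤ C ^ (1 + ω) * (A / δ + 1) ^ (1 + ω) * (n : ℝ) ^ 2 := by gcongr
    _ = (C * (A / δ + 1)) ^ (1 + ω) * (n : ℝ) ^ 2 := by rw [mul_pow]

/-- Finiteness for all lattices whose conductor has a large square divisor. -/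
theorem finite_G_all (K : Type*) [Field K] [NumberField K] (hK : Module.finrank ℚ K = 3)
    (σ : Fin 3 → K →+* ℝ) (hσ : Function.Injective σ) (δ ε : ℝ) (hδ : 0 < δ) (hε : 0 < ε) :
    {m : ℝ | ∃ (α : Fin 3 → K) (n f : ℕ), LinearIndependent ℚ α ∧ n ≠ 0 ∧ f ^ 2 ∣ n ∧
      HasUnit K (n / f) f ∧ StableUnder K α n ∧
      (n : ℝ) ^ (2 + δ) ≤ (latticeIndex K α : ℝ) * (f : ℝ) ∧
      m = markovMin (fun i j => σ i (α j)) ∧ ε ≤ m}.Finite := by
  obtain ⟨C, hC1, hC⟩ := bound_G_all K hK σ hσ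
  obtain ⟨C', hC'0, hC'⟩ := omega_bound C hC1 (δ / 2) (by linarith)
  set D : ℝ := C * C' / ε with hD
  have hD0 : 0 < D := by positivity
  set N₀ : ℝ := D ^ (2 / δ) with hN₀
  set B : ℕ := ⌊D * N₀ ^ (2 + δ / 2)⌋₊ with hB
  obtain ⟨-, hV⟩ := finite_of_index K hK σ hσ B
  refine (hV ε hε).subset ?_
  rintro m ⟨α, n, f, hα, hn, hfn, hun, hst, hidx, hm, hεm⟩
  refine ⟨α, n, hα, hn, hst, ?_, hm, hεm⟩
  have hn0 : (0 : ℝ) < (n : ℝ) := by exact_mod_cast Nat.pos_of_ne_zero hn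
  have hf1 : (1 : ℝ) ≤ (f : ℝ) := by
    have : f ≠ 0 := by
      rintro rfl
      exact hn (by simpa using hfn)
    exact_mod_cast Nat.one_le_iff_ne_zero.mpr this
  have h1 := hC α n f hα hn hfn hun hst
  have h2 : C ^ (1 + n.primeFactors.card) ≤ C * (C' * (n : ℝ) ^ (δ / 2)) := by
    rw [pow_add, pow_one]
    exact mul_le_mul_of_nonneg_left (hC' n hn) (by linarith)
  have h3 : ε * ((latticeIndex K α : ℝ) * (f : ℝ)) ≤ C * (C' * (n : ℝ) ^ (δ / 2)) * (n : ℝ) ^ 2 := by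
    calc ε * ((latticeIndex K α : ℝ) * (f : ℝ)) ≤
          markovMin (fun i j => σ i (α j)) * ((latticeIndex K α : ℝ) * (f : ℝ)) :=
          mul_le_mul_of_nonneg_right (hm ▸ hεm) (by positivity)
      _ = markovMin (fun i j => σ i (α j)) * (latticeIndex K α : ℝ) * (f : ℝ) := by ring
      _ ≤ C ^ (1 + n.primeFactors.card) * (n : ℝ) ^ 2 := h1
      _ ≤ _ := mul_le_mul_of_nonneg_right h2 (by positivity)
  have h4 : (n : ℝ) ^ (δ / 2) * (n : ℝ) ^ 2 = (n : ℝ) ^ (2 + δ / 2) := by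
    rw [← Real.rpow_natCast (n : ℝ) 2, ← Real.rpow_add hn0]
    congr 1
    push_cast
    ring
  have h5 : (latticeIndex K α : ℝ) * (f : ℝ) ≤ D * (n : ℝ) ^ (2 + δ / 2) := by
    rw [hD, ← h4, div_mul_eq_mul_div, le_div_iff₀ hε]
    linarith
  have h6 : (n : ℝ) ^ (δ / 2) ≤ D := by
    have h7 : (n : ℝ) ^ (2 + δ / 2) * (n : ℝ) ^ (δ / 2) ≤ (n : ℝ) ^ (2 + δ / 2) * D := by
      rw [← Real.rpow_add hn0]
      calc (n : ℝ) ^ (2 + δ / 2 + δ / 2) = (n : ℝ) ^ (2 + δ) := by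
            congr 1
            ring
        _ ≤ (latticeIndex K α : ℝ) * (f : ℝ) := hidx
        _ ≤ D * (n : ℝ) ^ (2 + δ / 2) := h5
        _ = (n : ℝ) ^ (2 + δ / 2) * D := mul_comm _ _
    exact le_of_mul_le_mul_left h7 (by positivity)
  have h8 : (n : ℝ) ≤ N₀ := by
    rw [hN₀]
    calc (n : ℝ) = ((n : ℝ) ^ (δ / 2)) ^ (2 / δ) := by
          rw [← Real.rpow_mul hn0.le]
          have : δ / 2 * (2 / δ) = 1 := by field_simp
          rw [this, Real.rpow_one]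
      _ ≤ D ^ (2 / δ) := Real.rpow_le_rpow (by positivity) h6 (by positivity)
  apply Nat.le_floor
  calc (latticeIndex K α : ℝ) = (latticeIndex K α : ℝ) * 1 := (mul_one _).symm
    _ ≤ (latticeIndex K α : ℝ) * (f : ℝ) :=
        mul_le_mul_of_nonneg_left hf1 (Nat.cast_nonneg _)
    _ ≤ D * (n : ℝ) ^ (2 + δ / 2) := h5
    _ ≤ D * N₀ ^ (2 + δ / 2) :=
        mul_le_mul_of_nonneg_left (Real.rpow_le_rpow hn0.le h8 (by positivity)) hD0.le

/-- All conductors with a large square divisor, all lattices. -/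
theorem final_G_all (K : Type*) [Field K] [NumberField K] (hK : Module.finrank ℚ K = 3)
    (σ : Fin 3 → K →+* ℝ) (hσ : Function.Injective σ) :
    (∃ C : ℝ, ∀ (α : Fin 3 → K) (n f : ℕ), LinearIndependent ℚ α → n ≠ 0 → f ^ 2 ∣ n →
      HasUnit K (n / f) f →
      (StableUnder K α n →
        markovMin (fun i j => σ i (α j)) * (latticeIndex K α : ℝ) * (f : ℝ) ≤
          C ^ (1 + n.primeFactors.card) * (n : ℝ) ^ 2) ∧
      (CyclicModulo K α n →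
        markovMin (fun i j => σ i (α j)) * (f : ℝ) ≤ C ^ (1 + n.primeFactors.card))) ∧
    (∀ δ ε : ℝ, 0 < δ → 0 < ε →
      {m : ℝ | ∃ (α : Fin 3 → K) (n f : ℕ), LinearIndependent ℚ α ∧ n ≠ 0 ∧ f ^ 2 ∣ n ∧
        HasUnit K (n / f) f ∧
        ((StableUnder K α n ∧ (n : ℝ) ^ (2 + δ) ≤ (latticeIndex K α : ℝ) * (f : ℝ)) ∨
          (CyclicModulo K α n ∧ (n : ℝ) ^ δ ≤ (f : ℝ))) ∧
        m = markovMin (fun i j => σ i (α j)) ∧ ε ≤ m}.Finite) ∧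
    (∀ p : ℕ, p.Prime → ∃ w : ℕ, ∀ j b : ℕ, HasUnit K (p ^ (w + j)) (p ^ b)) ∧
    (∀ p w : ℕ, p.Prime → 3 ≤ p → 1 ≤ w → HasUnit K (p ^ w) p →
      ∀ j b : ℕ, HasUnit K (p ^ (w + j)) (p ^ b)) := by
  refine ⟨?_, ?_, fun p hp => hasUnit_prime K hK σ hσ p hp,
    fun p w hp hp3 hw h j b => hasUnit_odd K p hp hp3 w hw h j b⟩
  · obtain ⟨C, hC1, hC⟩ := bound_G_all K hK σ hσ
    refine ⟨C, fun α n f hα hn hfn hun => ⟨fun hst => hC α n f hα hn hfn hun hst, ?_⟩⟩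
    intro hcy
    have h1 := hC α n f hα hn hfn hun hcy.1
    have h2 : (n : ℝ) ^ 2 ≤ (latticeIndex K α : ℝ) := by
      exact_mod_cast latticeIndex_ge K hK α n hn hα hcy
    have hn0 : (0 : ℝ) < (n : ℝ) ^ 2 := by
      have : (0 : ℝ) < (n : ℝ) := by exact_mod_cast Nat.pos_of_ne_zero hn
      positivity
    have h3 : (markovMin (fun i j => σ i (α j)) * (f : ℝ)) * (n : ℝ) ^ 2 ≤
        C ^ (1 + n.primeFactors.card) * (n : ℝ) ^ 2 := by
      refine le_trans ?_ h1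
      calc (markovMin (fun i j => σ i (α j)) * (f : ℝ)) * (n : ℝ) ^ 2
          ≤ (markovMin (fun i j => σ i (α j)) * (f : ℝ)) * (latticeIndex K α : ℝ) :=
            mul_le_mul_of_nonneg_left h2 (mul_nonneg (markovMin_nonneg _) (Nat.cast_nonneg _))
        _ = _ := by ring
    exact le_of_mul_le_mul_right h3 hn0
  · intro δ ε hδ hε
    refine (finite_G_all K hK σ hσ δ ε hδ hε).subset ?_
    rintro m ⟨α, n, f, hα, hn, hfn, hun, hcase, hm, hεm⟩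
    rcases hcase with ⟨hst, hidx⟩ | ⟨hcy, hfδ⟩
    · exact ⟨α, n, f, hα, hn, hfn, hun, hst, hidx, hm, hεm⟩
    · refine ⟨α, n, f, hα, hn, hfn, hun, hcy.1, ?_, hm, hεm⟩
      have h2 : (n : ℝ) ^ 2 ≤ (latticeIndex K α : ℝ) := by
        exact_mod_cast latticeIndex_ge K hK α n hn hα hcy
      have hn0 : (0 : ℝ) < (n : ℝ) := by exact_mod_cast Nat.pos_of_ne_zero hn
      rw [Real.rpow_add hn0, Real.rpow_two]
      exact mul_le_mul h2 hfδ (by positivity) (Nat.cast_nonneg _)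

end Pool.Agent.MP_ca7d12_nt
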