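import Pool.Agent.Lib.MP_ca7d12_nt.G.OddA

set_option autoImplicit false

namespace Pool.Agent.MP_ca7d12_nt

open NumberField
open scoped Pointwise

/-- Avoidance above `2`: a subgroup `M` generating `I` has an element outside `Q ^ 4 I` for all the
primes `Q` above `2`. -/
theorem avoid_two (K : Type*) [Field K] [NumberField K] (hK : Module.finrank ℚ K = 3)
    (I : Ideal (𝓞 K)) (hI : I ≠ ⊥)
    (M : AddSubgroup (𝓞 K)) (hM : Ideal.span (M : Set (𝓞 K)) = I) :
    ∃ g ∈ M, ∀ Q : Ideal (𝓞 K), Q.IsPrime → (2 : 𝓞 K) ∈ Q → g ∉ Q ^ 4 * I := by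
  classical
  obtain ⟨T, hT3, hT'⟩ := card_primes_le K hK 2 Nat.prime_two
  have hT : ∀ Q : Ideal (𝓞 K), Q.IsPrime ∧ (2 : 𝓞 K) ∈ Q ↔ Q ∈ T := by
    intro Q
    rw [← hT' Q, Nat.cast_ofNat]
  have h20 : (2 : 𝓞 K) ≠ 0 := two_ne_zero
  have hd : Module.finrank ℤ (𝓞 K) = 3 := by
    rw [RingOfIntegers.rank, hK]
  have hnorm : Ideal.absNorm (Ideal.span {(2 : 𝓞 K)}) = 8 := by
    rw [Ideal.absNorm_span_singleton]
    have h1 : Algebra.norm ℤ (2 : 𝓞 K) = (2 : ℤ) ^ 3 := by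
      have h2 := Algebra.norm_algebraMap (R := ℤ) (S := 𝓞 K) (2 : ℤ)
      rw [← hd, ← h2]
      congr 1
      simp
    rw [h1]
    rfl
  by_contra hcon
  push Not at hcon
  set H : Ideal (𝓞 K) → AddSubgroup M := fun Q =>
    (Q ^ 4 * I).toAddSubgroup.addSubgroupOf M with hH
  have hcover : ⋃ Q ∈ T, (0 : M) +ᵥ (H Q : Set M) = Set.univ := by
    rw [Set.eq_univ_iff_forall]
    intro g
    obtain ⟨Q, hQ, hPQ, hgQ⟩ := hcon g g.2
    simp only [zero_vadd, Set.mem_iUnion]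
    exact ⟨Q, (hT Q).1 ⟨hQ, hPQ⟩, hgQ⟩
  have hnot : ∀ Q ∈ T, ¬ ∀ g ∈ M, g ∈ Q * I := by
    intro Q hQ h
    obtain ⟨hQp, _⟩ := (hT Q).2 hQ
    have h1 : I ≤ Q * I := by
      conv_lhs => rw [← hM]
      rw [Ideal.span_le]
      exact h
    have h2 : Q * I ∣ 1 * I := by
      rw [one_mul, Ideal.dvd_iff_le]
      exact h1
    have h3 : Q ∣ 1 := (mul_dvd_mul_iff_right (by rwa [Ne, Ideal.zero_eq_bot])).1 h2
    rw [Ideal.dvd_iff_le, Ideal.one_eq_top, top_le_iff] at h3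
    exact hQp.ne_top h3
  have hidx : ∀ Q ∈ T, (((H Q).index : ℚ)⁻¹) ≤ 4⁻¹ := by
    intro Q hQ
    obtain ⟨hQp, h2Q⟩ := (hT Q).2 hQ
    have hQbot : Q ≠ ⊥ := by
      intro h0
      rw [h0, Ideal.mem_bot] at h2Q
      exact h20 h2Q
    have hQprime : Prime Q := Ideal.prime_of_isPrime hQbot hQp
    have hle4 : Q ^ 4 * I ≤ Q * I := Ideal.mul_mono_left (Ideal.pow_le_self (by norm_num))
    have hmul : ∀ g ∈ M, ((H Q).index : 𝓞 K) * g ∈ Q ^ 4 * I := by
      intro g hg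
      have h1 : (H Q).index • (⟨g, hg⟩ : M) ∈ H Q := AddSubgroup.nsmul_index_mem (H Q) ⟨g, hg⟩
      have h2 : (((H Q).index • (⟨g, hg⟩ : M) : M) : 𝓞 K) ∈ Q ^ 4 * I := h1
      rwa [AddSubgroup.coe_nsmul, nsmul_eq_mul] at h2
    have hgI : ∀ g ∈ M, g ∈ I := fun g hg => hM ▸ Ideal.subset_span hg
    have h16 : ∀ g ∈ M, (2 : 𝓞 K) ^ 4 * g ∈ Q ^ 4 * I := fun g hg =>
      Ideal.mul_mem_mul (Ideal.pow_mem_pow h2Q 4) (hgI g hg)
    have h1 : (H Q).index ≠ 1 := by
      intro h1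
      refine hnot Q hQ fun g hg => hle4 ?_
      have h2 := hmul g hg
      rwa [h1, Nat.cast_one, one_mul] at h2
    have h2 : (H Q).index ≠ 2 := by
      intro h2
      refine hnot Q hQ fun g hg => ?_
      have h3 := hmul g hg
      rw [h2, Nat.cast_ofNat] at h3
      obtain ⟨C, hC⟩ : I ∣ Ideal.span {g} := by
        rw [Ideal.dvd_span_singleton]
        exact hgI g hg
      have h4 : Q ^ 4 * I ∣ Ideal.span {(2 : 𝓞 K)} * C * I := by
        have h5 : Ideal.span {(2 : 𝓞 K)} * C * I = Ideal.span {(2 : 𝓞 K) * g} := by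
          rw [mul_assoc, mul_comm C I, ← hC, Ideal.span_singleton_mul_span_singleton]
        rw [h5, Ideal.dvd_span_singleton]
        exact h3
      have h6 : Q ^ 4 ∣ Ideal.span {(2 : 𝓞 K)} * C :=
        (mul_dvd_mul_iff_right (by rwa [Ne, Ideal.zero_eq_bot])).1 h4
      by_cases hQC : Q ∣ C
      · have h7 : Q * I ∣ Ideal.span {g} := by
          rw [hC, mul_comm I C]
          exact mul_dvd_mul_right hQC I
        rwa [Ideal.dvd_span_singleton] at h7
      · exfalso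
        have h7 : Q ^ 4 ∣ Ideal.span {(2 : 𝓞 K)} :=
          hQprime.pow_dvd_of_dvd_mul_right 4 hQC h6
        have h8 : Ideal.absNorm Q ^ 4 ∣ 8 := by
          rw [← hnorm, ← map_pow]
          exact map_dvd Ideal.absNorm h7
        have h9 : Ideal.absNorm Q ^ 4 ≤ 8 := Nat.le_of_dvd (by norm_num) h8
        have h10 : Ideal.absNorm Q < 2 := by
          by_contra hc
          have h11 : 2 ^ 4 ≤ Ideal.absNorm Q ^ 4 := Nat.pow_le_pow_left (not_lt.1 hc) 4
          omega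
        have h11 : Ideal.absNorm Q ≠ 1 := by
          intro h0
          rw [Ideal.absNorm_eq_one_iff] at h0
          exact hQp.ne_top h0
        have h12 : Ideal.absNorm Q ≠ 0 := by
          intro h0
          rw [h0] at h8
          norm_num at h8
        omega
    have h3 : (H Q).index ≠ 3 := by
      intro h3
      refine hnot Q hQ fun g hg => hle4 ?_
      have h4 := hmul g hg
      rw [h3] at h4
      have h5 : g = (2 : 𝓞 K) ^ 4 * g - 5 * (((3 : ℕ) : 𝓞 K) * g) := by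
        push_cast
        ring
      rw [h5]
      exact Ideal.sub_mem _ (h16 g hg) (Ideal.mul_mem_left _ _ h4)
    rcases Nat.eq_zero_or_pos (H Q).index with h0 | h0
    · rw [h0]
      norm_num
    · have h4 : 4 ≤ (H Q).index := by omega
      have h5 : (4 : ℚ) ≤ (H Q).index := by exact_mod_cast h4
      exact inv_anti₀ (by norm_num) h5
  have hge := AddSubgroup.one_le_sum_inv_index_of_leftCoset_cover hcover
  have hle : ∑ Q ∈ T, (((H Q).index : ℚ)⁻¹) ≤ T.card • (4 : ℚ)⁻¹ :=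
    Finset.sum_le_card_nsmul T _ _ hidx
  have hT3' : (T.card : ℚ) ≤ 3 := by exact_mod_cast hT3
  rw [nsmul_eq_mul] at hle
  have h1 : (T.card : ℚ) * 4⁻¹ ≤ 3 * 4⁻¹ := mul_le_mul_of_nonneg_right hT3' (by norm_num)
  have h2 : (1 : ℚ) ≤ 3 * 4⁻¹ := (hge.trans hle).trans h1
  norm_num at h2

end Pool.Agent.MP_ca7d12_nt
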