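import Pool.Agent.Lib.MP_ca7d12_nt.G.Sieve
import Pool.Agent.Lib.MP_ca7d12_nt.T.Mink
import Pool.Agent.Lib.MP_ca7d12_nt.ProdEmb

set_option autoImplicit false

namespace Pool.Agent.MP_ca7d12_nt

open NumberField

/-- Elements of a lattice outside finitely many sublattices of prime index: the smallest norm is
bounded by the index of the lattice, up to a factor depending only on the number of sublattices. -/
theorem small_outside (K : Type*) [Field K] [NumberField K] (hK : Module.finrank ℚ K = 3)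
    (σ : Fin 3 → K →+* ℝ) (hσ : Function.Injective σ) :
    ∃ C : ℝ, 0 < C ∧ ∀ (Λ : AddSubgroup (𝓞 K)), Λ.index ≠ 0 → ∀ (Q : Finset ℕ),
      (∀ q ∈ Q, q.Prime) → ∀ Λ' : ℕ → AddSubgroup (𝓞 K),
      (∀ q ∈ Q, Λ' q ≤ Λ) → (∀ q ∈ Q, ∀ ξ ∈ Λ, (q : 𝓞 K) * ξ ∈ Λ' q) →
      (∀ q ∈ Q, ∀ y ∈ Λ, ∀ ξ ∈ Λ, ξ ∉ Λ' q → ∃ r : ℤ, y - (r : 𝓞 K) * ξ ∈ Λ' q) →
      (∃ g ∈ Λ, g ≠ 0 ∧ ∀ q ∈ Q, g ∉ Λ' q) →
      ∃ y ∈ Λ, y ≠ 0 ∧ (∀ q ∈ Q, y ∉ Λ' q) ∧
        ((|Algebra.norm ℤ y| : ℤ) : ℝ) ≤ C * (4 * 48 ^ Q.card : ℝ) ^ 3 * (Λ.index : ℝ) := by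
  classical
  obtain ⟨δ, hδ, hmink⟩ := minkowski_sub K hK σ hσ
  refine ⟨δ, hδ, ?_⟩
  intro Λ hΛ Q hQ Λ' hle hqmul hcyc hg
  obtain ⟨g, hgΛ, hg0, hgQ⟩ := hg
  have hex : ∃ n : ℕ, ∃ y : 𝓞 K, (y ∈ Λ ∧ y ≠ 0 ∧ ∀ q ∈ Q, y ∉ Λ' q) ∧
      (Algebra.norm ℤ y).natAbs = n := ⟨_, g, ⟨hgΛ, hg0, hgQ⟩, rfl⟩
  obtain ⟨y, ⟨hyΛ, hy0, hyQ⟩, hyn⟩ := Nat.find_spec hex
  have hmin : ∀ z : 𝓞 K, z ∈ Λ → z ≠ 0 → (∀ q ∈ Q, z ∉ Λ' q) →
      (Algebra.norm ℤ y).natAbs ≤ (Algebra.norm ℤ z).natAbs := by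
    intro z hz1 hz2 hz3
    rw [hyn]
    exact Nat.find_min' hex ⟨z, ⟨hz1, hz2, hz3⟩, rfl⟩
  refine ⟨y, hyΛ, hy0, hyQ, ?_⟩
  by_contra hcon
  push Not at hcon
  obtain ⟨B, hB⟩ : ∃ B : ℝ, B = 4 * 48 ^ Q.card := ⟨_, rfl⟩
  have hB0 : 0 < B := by rw [hB]; positivity
  rw [← hB] at hcon
  have hne : ∀ z : 𝓞 K, z ≠ 0 → ∀ i, σ i (z : K) ≠ 0 := by
    intro z hz i h
    apply hz
    have h1 : (z : K) = 0 := (map_eq_zero (σ i)).1 h
    exact_mod_cast h1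
  have hprod : ∏ i, |σ i (y : K)| = ((|Algebra.norm ℤ y| : ℤ) : ℝ) := by
    rw [← Finset.abs_prod, prod_embeddings K hK σ hσ y]
    push_cast
    rfl
  obtain ⟨ξ, hξΛ, hξ0, hξ⟩ := hmink Λ hΛ (fun i => |σ i (y : K)| / B)
    (fun i => div_pos (abs_pos.2 (hne y hy0 i)) hB0) (by
      rw [Finset.prod_div_distrib, hprod, Finset.prod_const, Finset.card_univ, Fintype.card_fin,
        lt_div_iff₀ (by positivity)]
      calc δ * (Λ.index : ℝ) * B ^ 3 = δ * B ^ 3 * (Λ.index : ℝ) := by ring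
        _ < _ := hcon)
  -- the residues
  have hr : ∃ r : ℕ → ℤ, ∀ q ∈ Q, ¬ ((q : ℤ) ∣ r q) ∧
      (ξ ∉ Λ' q → y - ((r q : ℤ) : 𝓞 K) * ξ ∈ Λ' q) := by
    have h1 : ∀ q : ℕ, ∃ r : ℤ, q ∈ Q → ¬ ((q : ℤ) ∣ r) ∧
        (ξ ∉ Λ' q → y - ((r : ℤ) : 𝓞 K) * ξ ∈ Λ' q) := by
      intro q
      by_cases hq : q ∈ Q
      · by_cases hξq : ξ ∈ Λ' q
        · refine ⟨1, fun _ => ⟨?_, fun h => absurd hξq h⟩⟩
          intro h
          have h2 : q ∣ 1 := by exact_mod_cast h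
          have h3 := (hQ q hq).one_lt
          have h4 := Nat.dvd_one.1 h2
          omega
        · obtain ⟨r, hr⟩ := hcyc q hq y hyΛ ξ hξΛ hξq
          refine ⟨r, fun _ => ⟨?_, fun _ => hr⟩⟩
          rintro ⟨m, hm⟩
          apply hyQ q hq
          have h2 : ((r : ℤ) : 𝓞 K) * ξ ∈ Λ' q := by
            have h3 := (Λ' q).zsmul_mem (hqmul q hq ξ hξΛ) m
            rw [zsmul_eq_mul] at h3
            have e : ((r : ℤ) : 𝓞 K) * ξ = ((m : ℤ) : 𝓞 K) * ((q : 𝓞 K) * ξ) := by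
              rw [hm]
              push_cast
              ring
            rw [e]
            exact h3
          have h3 := (Λ' q).add_mem hr h2
          rwa [sub_add_cancel] at h3
      · exact ⟨0, fun h => absurd h hq⟩
    choose r hr using h1
    exact ⟨r, fun q hq => hr q hq⟩
  obtain ⟨r, hr⟩ := hr
  obtain ⟨k, hk0, hkB, hk⟩ := sieve Q hQ r (fun q hq => (hr q hq).1)
  have hkey : ∀ s : ℤ, (∀ q ∈ Q, ¬ ((q : ℤ) ∣ s - r q)) → ∀ q ∈ Q,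
      y - ((s : ℤ) : 𝓞 K) * ξ ∉ Λ' q := by
    intro s hs q hq hmem
    by_cases hξq : ξ ∈ Λ' q
    · apply hyQ q hq
      have h2 := (Λ' q).zsmul_mem hξq s
      rw [zsmul_eq_mul] at h2
      have h3 := (Λ' q).add_mem hmem h2
      rwa [sub_add_cancel] at h3
    · apply hξq
      have h2 := (hr q hq).2 hξq
      have h3 := (Λ' q).sub_mem h2 hmem
      have e : (y - ((r q : ℤ) : 𝓞 K) * ξ) - (y - ((s : ℤ) : 𝓞 K) * ξ) =
          (((s - r q : ℤ)) : 𝓞 K) * ξ := by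
        push_cast
        ring
      rw [e] at h3
      have hcop : IsCoprime (q : ℤ) (s - r q) :=
        ((Nat.prime_iff_prime_int.1 (hQ q hq)).irreducible.coprime_iff_not_dvd).2 (hs q hq)
      obtain ⟨a, b, hab⟩ := hcop
      have h4 := (Λ' q).zsmul_mem (hqmul q hq ξ hξΛ) a
      have h5 := (Λ' q).zsmul_mem h3 b
      have h6 := (Λ' q).add_mem h4 h5
      rw [zsmul_eq_mul, zsmul_eq_mul] at h6
      have e2 : ((a : ℤ) : 𝓞 K) * ((q : 𝓞 K) * ξ) + ((b : ℤ) : 𝓞 K) * ((((s - r q : ℤ)) : 𝓞 K) * ξ) =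
          (((a * (q : ℤ) + b * (s - r q) : ℤ)) : 𝓞 K) * ξ := by
        push_cast
        ring
      rw [e2, hab, Int.cast_one, one_mul] at h6
      exact h6
  obtain ⟨η, hη⟩ : ∃ η : 𝓞 K, η = ((k : ℤ) : 𝓞 K) * ξ := ⟨_, rfl⟩
  have hηΛ : η ∈ Λ := by
    have h2 := Λ.zsmul_mem hξΛ (k : ℤ)
    rw [zsmul_eq_mul] at h2
    rw [hη]
    exact h2
  have hη0 : η ≠ 0 := by
    rw [hη]
    refine mul_ne_zero ?_ hξ0
    have : ((k : ℤ) : 𝓞 K) = ((k : ℕ) : 𝓞 K) := by push_cast; rfl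
    rw [this]
    exact_mod_cast hk0.ne'
  have hkBR : (k : ℝ) ≤ B := by
    rw [hB]
    exact_mod_cast hkB
  have hηlt : ∀ i, |σ i (η : K)| < |σ i (y : K)| := by
    intro i
    have h1 : |σ i (η : K)| = (k : ℝ) * |σ i (ξ : K)| := by
      rw [hη]
      push_cast
      rw [map_mul, map_natCast, abs_mul, Nat.abs_cast]
    have h2 := hξ i
    rw [lt_div_iff₀ hB0] at h2
    rw [h1]
    calc (k : ℝ) * |σ i (ξ : K)| ≤ B * |σ i (ξ : K)| :=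
          mul_le_mul_of_nonneg_right hkBR (abs_nonneg _)
      _ = |σ i (ξ : K)| * B := mul_comm _ _
      _ < |σ i (y : K)| := h2
  have hplusQ : ∀ q ∈ Q, y + η ∉ Λ' q := by
    intro q hq
    have h1 := hkey (-(k : ℤ)) (fun q hq h => (hk q hq).2 (by
      have h2 : (k : ℤ) + r q = -(-(k : ℤ) - r q) := by ring
      rw [h2]
      exact (dvd_neg).2 h)) q hq
    have e : y - ((-(k : ℤ) : ℤ) : 𝓞 K) * ξ = y + η := by
      rw [hη]
      push_cast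
      ring
    rwa [e] at h1
  have hminusQ : ∀ q ∈ Q, y - η ∉ Λ' q := by
    intro q hq
    have h1 := hkey (k : ℤ) (fun q hq => (hk q hq).1) q hq
    rwa [← hη] at h1
  have hplus0 : y + η ≠ 0 := by
    intro h0
    have h1 : σ 0 ((y + η : 𝓞 K) : K) = 0 := by rw [h0]; simp
    push_cast at h1
    rw [map_add] at h1
    have h2 := hηlt 0
    have h3 : σ 0 (η : K) = -σ 0 (y : K) := by linarith
    rw [h3, abs_neg] at h2
    exact lt_irrefl _ h2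
  have hminus0 : y - η ≠ 0 := by
    intro h0
    have h1 : σ 0 ((y - η : 𝓞 K) : K) = 0 := by rw [h0]; simp
    push_cast at h1
    rw [map_sub] at h1
    have h2 := hηlt 0
    have h3 : σ 0 (η : K) = σ 0 (y : K) := by linarith
    rw [h3] at h2
    exact lt_irrefl _ h2
  have h1 := hmin _ (Λ.add_mem hyΛ hηΛ) hplus0 hplusQ
  have h2 := hmin _ (Λ.sub_mem hyΛ hηΛ) hminus0 hminusQ
  have hcast : ∀ z : 𝓞 K, (((Algebra.norm ℤ z).natAbs : ℕ) : ℝ) = |((Algebra.norm ℤ z : ℤ) : ℝ)| := by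
    intro z
    rw [Nat.cast_natAbs]
    push_cast
    rfl
  have h1' : |((Algebra.norm ℤ y : ℤ) : ℝ)| ≤ |((Algebra.norm ℤ (y + η) : ℤ) : ℝ)| := by
    rw [← hcast, ← hcast]; exact_mod_cast h1
  have h2' : |((Algebra.norm ℤ y : ℤ) : ℝ)| ≤ |((Algebra.norm ℤ (y - η) : ℤ) : ℝ)| := by
    rw [← hcast, ← hcast]; exact_mod_cast h2
  have hmul : |((Algebra.norm ℤ y : ℤ) : ℝ)| * |((Algebra.norm ℤ y : ℤ) : ℝ)| ≤
      |((Algebra.norm ℤ (y + η) : ℤ) : ℝ)| * |((Algebra.norm ℤ (y - η) : ℤ) : ℝ)| :=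
    mul_le_mul h1' h2' (abs_nonneg _) (abs_nonneg _)
  rw [← prod_embeddings K hK σ hσ y, ← prod_embeddings K hK σ hσ (y + η),
    ← prod_embeddings K hK σ hσ (y - η), Finset.abs_prod, Finset.abs_prod, Finset.abs_prod,
    ← Finset.prod_mul_distrib, ← Finset.prod_mul_distrib] at hmul
  have hlt : ∏ i : Fin 3, (|σ i ((y + η : 𝓞 K) : K)| * |σ i ((y - η : 𝓞 K) : K)|) <
      ∏ i : Fin 3, (|σ i (y : K)| * |σ i (y : K)|) := by
    apply Finset.prod_lt_prod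
    · intro i _
      rw [← abs_mul]
      apply abs_pos.2
      have ha : |σ i (η : K)| < |σ i (y : K)| := hηlt i
      have hb : (σ i (η : K)) ^ 2 < (σ i (y : K)) ^ 2 := sq_lt_sq.2 ha
      have e : σ i ((y + η : 𝓞 K) : K) * σ i ((y - η : 𝓞 K) : K)
          = (σ i (y : K)) ^ 2 - (σ i (η : K)) ^ 2 := by
        push_cast
        rw [map_add, map_sub]; ring
      rw [e]
      exact (sub_pos.2 hb).ne'
    · intro i _
      have ha : |σ i (η : K)| < |σ i (y : K)| := hηlt i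
      have hb : (σ i (η : K)) ^ 2 < (σ i (y : K)) ^ 2 := sq_lt_sq.2 ha
      have e : σ i ((y + η : 𝓞 K) : K) * σ i ((y - η : 𝓞 K) : K)
          = (σ i (y : K)) ^ 2 - (σ i (η : K)) ^ 2 := by
        push_cast
        rw [map_add, map_sub]; ring
      rw [← abs_mul, e, abs_mul_abs_self, abs_of_pos (sub_pos.2 hb)]
      nlinarith [sq_nonneg (σ i (η : K))]
    · refine ⟨0, Finset.mem_univ _, ?_⟩
      have ha : |σ 0 (η : K)| < |σ 0 (y : K)| := hηlt 0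
      have hb : (σ 0 (η : K)) ^ 2 < (σ 0 (y : K)) ^ 2 := sq_lt_sq.2 ha
      have e : σ 0 ((y + η : 𝓞 K) : K) * σ 0 ((y - η : 𝓞 K) : K)
          = (σ 0 (y : K)) ^ 2 - (σ 0 (η : K)) ^ 2 := by
        push_cast
        rw [map_add, map_sub]; ring
      have hx : 0 < (σ 0 (η : K)) ^ 2 := by
        have := hne η hη0 0
        positivity
      rw [← abs_mul, e, abs_mul_abs_self, abs_of_pos (sub_pos.2 hb)]
      nlinarith
  exact absurd hmul (not_le.2 hlt)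

end Pool.Agent.MP_ca7d12_nt
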