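import Pool.Agent.Lib.MP_ca7d12_nt.W.Defs

set_option autoImplicit false

namespace Pool.Agent.MP_ca7d12_nt

open NumberField

/-- The order `ℤ + (n / f) 𝓞_K` contains a unit which is not in `ℤ + (n / f) p 𝓞_K` for any prime
divisor `p` of `f` (here `s = n / f`): a unit `u = c + s v` with `c` an integer and `v` not congruent
to an integer modulo any prime divisor of `f`. -/
def HasUnit (K : Type*) [Field K] [NumberField K] (s f : ℕ) : Prop :=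
  ∃ (u : (𝓞 K)ˣ) (c : ℤ) (v : 𝓞 K), (u : 𝓞 K) = (c : 𝓞 K) + (s : 𝓞 K) * v ∧
    ∀ p : ℕ, p.Prime → p ∣ f → ∀ (i : ℤ) (w : 𝓞 K), v ≠ (i : 𝓞 K) + (p : 𝓞 K) * w

/-- The lattice `M = ℤ α₀ + ℤ α₁ + ℤ α₂` satisfies `n 𝓞_K M ⊆ M`, and `𝓞_K M = 𝓞_K g + n 𝓞_K M` for
some `g` in `M`. -/
def LocGen (K : Type*) [Field K] [NumberField K] (α : Fin 3 → K) (n : ℕ) : Prop :=
  StableUnder K α n ∧
    ∃ g ∈ Submodule.span ℤ (Set.range α), ∀ x ∈ Submodule.span ℤ (Set.range α), ∃ w : 𝓞 K,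
      x - (w : K) * g ∈ Submodule.span ℤ {y : K | ∃ z : 𝓞 K,
        ∃ x' ∈ Submodule.span ℤ (Set.range α), y = (n : K) * (z : K) * x'}

end Pool.Agent.MP_ca7d12_nt
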