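import Pool.Agent.Lib.MP_ca7d12_nt.G.MainG

set_option autoImplicit false

namespace Pool.Agent.MP_ca7d12_nt

open NumberField MainG MainW

/-- All conductors: the bounds, the finiteness, and the existence of the units. -/
theorem final_G (K : Type*) [Field K] [NumberField K] (hK : Module.finrank ℚ K = 3)
    (σ : Fin 3 → K →+* ℝ) (hσ : Function.Injective σ) :
    (∃ C : ℝ, ∀ (α : Fin 3 → K) (n f : ℕ), LinearIndependent ℚ α → n ≠ 0 → f ^ 2 ∣ n →
      HasUnit K (n / f) f →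
      ((Odd n ∧ StableUnder K α n) ∨ LocGen K α n →
        markovMin (fun i j => σ i (α j)) * (latticeIndex K α : ℝ) * (f : ℝ) ≤
          C ^ (1 + n.primeFactors.card) * (n : ℝ) ^ 2) ∧
      (CyclicModulo K α n →
        markovMin (fun i j => σ i (α j)) * (f : ℝ) ≤ C ^ (1 + n.primeFactors.card))) ∧
    (∀ δ ε : ℝ, 0 < δ → 0 < ε →
      {m : ℝ | ∃ (α : Fin 3 → K) (n f : ℕ), LinearIndependent ℚ α ∧ n ≠ 0 ∧ f ^ 2 ∣ n ∧
        HasUnit K (n / f) f ∧
        ((((Odd n ∧ StableUnder K α n) ∨ LocGen K α n) ∧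
          (n : ℝ) ^ (2 + δ) ≤ (latticeIndex K α : ℝ) * (f : ℝ)) ∨
          (CyclicModulo K α n ∧ (n : ℝ) ^ δ ≤ (f : ℝ))) ∧
        m = markovMin (fun i j => σ i (α j)) ∧ ε ≤ m}.Finite) ∧
    (∀ p : ℕ, p.Prime → ∃ w : ℕ, ∀ j b : ℕ, HasUnit K (p ^ (w + j)) (p ^ b)) ∧
    (∀ p w : ℕ, p.Prime → 3 ≤ p → 1 ≤ w → HasUnit K (p ^ w) p →
      ∀ j b : ℕ, HasUnit K (p ^ (w + j)) (p ^ b)) := by
  refine ⟨?_, ?_, fun p hp => hasUnit_prime K hK σ hσ p hp,
    fun p w hp hp3 hw h j b => hasUnit_odd K p hp hp3 w hw h j b⟩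
  · obtain ⟨C, hC1, hC⟩ := bound_G K hK σ hσ
    refine ⟨C, fun α n f hα hn hfn hun => ⟨fun hcase => hC α n f hα hn hfn hun hcase, ?_⟩⟩
    intro hcy
    have h1 := hC α n f hα hn hfn hun (Or.inr (locGen_of_cyclic α n hcy))
    have h2 : (n : ℝ) ^ 2 ≤ (latticeIndex K α : ℝ) := by
      exact_mod_cast latticeIndex_ge K hK α n hn hα hcy
    have hn0 : (0 : ℝ) < (n : ℝ) ^ 2 := by
      have : (0 : ℝ) < (n : ℝ) := by exact_mod_cast Nat.pos_of_ne_zero hn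
      positivity
    have h3 : (markovMin (fun i j => σ i (α j)) * (f : ℝ)) * (n : ℝ) ^ 2 ≤
        C ^ (1 + n.primeFactors.card) * (n : ℝ) ^ 2 := by
      refine le_trans ?_ h1
      calc (markovMin (fun i j => σ i (α j)) * (f : ℝ)) * (n : ℝ) ^ 2
          ≤ (markovMin (fun i j => σ i (α j)) * (f : ℝ)) * (latticeIndex K α : ℝ) :=
            mul_le_mul_of_nonneg_left h2 (mul_nonneg (markovMin_nonneg _) (Nat.cast_nonneg _))
        _ = _ := by ring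
    exact le_of_mul_le_mul_right h3 hn0
  · intro δ ε hδ hε
    refine (finite_G K hK σ hσ δ ε hδ hε).subset ?_
    rintro m ⟨α, n, f, hα, hn, hfn, hun, hcase, hm, hεm⟩
    rcases hcase with ⟨hcase, hidx⟩ | ⟨hcy, hfδ⟩
    · exact ⟨α, n, f, hα, hn, hfn, hun, hcase, hidx, hm, hεm⟩
    · refine ⟨α, n, f, hα, hn, hfn, hun, Or.inr (locGen_of_cyclic α n hcy), ?_, hm, hεm⟩
      have h2 : (n : ℝ) ^ 2 ≤ (latticeIndex K α : ℝ) := by
        exact_mod_cast latticeIndex_ge K hK α n hn hα hcy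
      have hn0 : (0 : ℝ) < (n : ℝ) := by exact_mod_cast Nat.pos_of_ne_zero hn
      rw [Real.rpow_add hn0, Real.rpow_two]
      exact mul_le_mul h2 hfδ (by positivity) (Nat.cast_nonneg _)

end Pool.Agent.MP_ca7d12_nt
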