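import Pool.Agent.Lib.MP_ca7d12_nt.G.AvoidTwo
import Pool.Agent.Lib.MP_ca7d12_nt.G.OddB

set_option autoImplicit false

namespace Pool.Agent.MP_ca7d12_nt

open NumberField

private theorem genAny_prime_mem {R : Type*} [CommRing R] (Q : Ideal R) (hQ : Q.IsPrime) :
    ∀ n : ℕ, n ≠ 0 → (n : R) ∈ Q → ∃ p : ℕ, p.Prime ∧ p ∣ n ∧ (p : R) ∈ Q := by
  intro n
  induction n using Nat.strong_induction_on with
  | _ n ih =>
    intro hn hmem
    by_cases h1 : n = 1
    · subst h1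
      rw [Nat.cast_one] at hmem
      exact absurd ((Ideal.eq_top_iff_one Q).2 hmem) hQ.ne_top
    · have hp := Nat.minFac_prime h1
      obtain ⟨m, hm⟩ := Nat.minFac_dvd n
      have hm0 : m ≠ 0 := by
        rintro rfl
        rw [mul_zero] at hm
        exact hn hm
      have hcast : (n : R) = (n.minFac : R) * (m : R) := by
        conv_lhs => rw [hm]
        push_cast
        rfl
      rw [hcast] at hmem
      rcases hQ.mem_or_mem hmem with h | h
      · exact ⟨n.minFac, hp, Nat.minFac_dvd n, h⟩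
      · have hlt : m < n := by
          have h2 := hp.two_le
          have : 0 < m := Nat.pos_of_ne_zero hm0
          calc m < n.minFac * m := by nlinarith
            _ = n := hm.symm
        obtain ⟨p, hp', hpm, hpQ⟩ := ih m hlt hm0 h
        exact ⟨p, hp', hpm.trans ⟨n.minFac, by rw [mul_comm]; exact hm⟩, hpQ⟩

/-- A common element of `M` which avoids `Q I` for all `Q` above the odd primes which divide `m`
and `Q ^ 4 I` for all `Q` above `2`. -/
private theorem genAny_avoid (K : Type*) [Field K] [NumberField K]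
    (hK : Module.finrank ℚ K = 3)
    (I : Ideal (𝓞 K)) (hI : I ≠ ⊥) (m : ℕ) (hm : m ≠ 0) (M : AddSubgroup (𝓞 K))
    (hM : Ideal.span (M : Set (𝓞 K)) = I) :
    ∃ g ∈ M, (∀ p : ℕ, p.Prime → 3 ≤ p → p ∣ m → ∀ Q : Ideal (𝓞 K), Q.IsPrime →
        (p : 𝓞 K) ∈ Q → g ∉ Q * I) ∧
      (2 ∣ m → ∀ Q : Ideal (𝓞 K), Q.IsPrime → (2 : 𝓞 K) ∈ Q → g ∉ Q ^ 4 * I) := by
  classical
  have hMI : ∀ x ∈ M, x ∈ I := by
    intro x hx
    rw [← hM]
    exact Ideal.subset_span hx
  -- the exponent: `1` at the odd primes and `4` at `2`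
  let e : ℕ → ℕ := fun p => if p = 2 then 4 else 1
  have hex : ∀ p ∈ m.primeFactors, ∃ g ∈ M,
      ∀ Q : Ideal (𝓞 K), Q.IsPrime → (p : 𝓞 K) ∈ Q → g ∉ Q ^ e p * I := by
    intro p hp
    have hpp := Nat.prime_of_mem_primeFactors hp
    by_cases h2 : p = 2
    · subst h2
      obtain ⟨g, hg, hav⟩ := avoid_two K hK I hI M hM
      refine ⟨g, hg, fun Q hQ h => ?_⟩
      have h' : (2 : 𝓞 K) ∈ Q := by exact_mod_cast h
      exact hav Q hQ h'
    · have hp3 : 3 ≤ p := by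
        have := hpp.two_le
        omega
      obtain ⟨g, hg, hav⟩ := avoid_odd K hK I hI p hpp hp3 M hM
      refine ⟨g, hg, fun Q hQ h => ?_⟩
      have he : e p = 1 := if_neg h2
      rw [he, pow_one]
      exact hav Q hQ h
  choose! G hGM hG using hex
  let c : ℕ → ℕ := fun p => ∏ q ∈ m.primeFactors.erase p, q ^ e q
  have hg : ∑ p ∈ m.primeFactors, c p • G p ∈ M :=
    M.sum_mem (fun p hp => M.nsmul_mem (hGM p hp) _)
  have key : ∀ p ∈ m.primeFactors, ∀ Q : Ideal (𝓞 K), Q.IsPrime → (p : 𝓞 K) ∈ Q →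
      ∑ p ∈ m.primeFactors, c p • G p ∉ Q ^ e p * I := by
    intro p hpS Q hQ hpQ hmem
    have hpp := Nat.prime_of_mem_primeFactors hpS
    have hpQ' : ((p ^ e p : ℕ) : 𝓞 K) ∈ Q ^ e p := by
      push_cast
      exact Ideal.pow_mem_pow hpQ _
    have hrest : ∑ q ∈ m.primeFactors.erase p, c q • G q ∈ Q ^ e p * I := by
      refine Submodule.sum_mem _ (fun q hq => ?_)
      have hqS := Finset.mem_of_mem_erase hq
      have hqp := Finset.ne_of_mem_erase hq
      have hdvd : p ^ e p ∣ c q :=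
        Finset.dvd_prod_of_mem (fun q => q ^ e q) (Finset.mem_erase.2 ⟨hqp.symm, hpS⟩)
      obtain ⟨l, hl⟩ := hdvd
      have : c q • G q = ((p ^ e p : ℕ) : 𝓞 K) * ((l : 𝓞 K) * G q) := by
        rw [hl, nsmul_eq_mul]
        push_cast
        ring
      rw [this]
      exact Ideal.mul_mem_mul hpQ' (I.mul_mem_left _ (hMI _ (hGM q hqS)))
    have hcp : c p • G p ∈ Q ^ e p * I := by
      have h := (Ideal.add_mem_iff_left (Q ^ e p * I) hrest).1
        (by rw [Finset.add_sum_erase _ (fun q => c q • G q) hpS]; exact hmem)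
      exact h
    have hcop : Nat.Coprime (c p) (p ^ e p) := by
      refine Nat.Coprime.pow_right _ (Nat.Coprime.prod_left (fun q hq => ?_))
      exact Nat.Coprime.pow_left _ ((Nat.coprime_primes
        (Nat.prime_of_mem_primeFactors (Finset.mem_of_mem_erase hq)) hpp).2
        (Finset.ne_of_mem_erase hq))
    obtain ⟨a, b, hab⟩ := Nat.isCoprime_iff_coprime.2 hcop
    refine hG p hpS Q hQ hpQ ?_
    have hab' : (a : 𝓞 K) * (c p : 𝓞 K) + (b : 𝓞 K) * ((p ^ e p : ℕ) : 𝓞 K) = 1 := by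
      exact_mod_cast congrArg (fun t : ℤ => (t : 𝓞 K)) hab
    have hfin : G p = (a : 𝓞 K) * (c p • G p) +
        ((p ^ e p : ℕ) : 𝓞 K) * ((b : 𝓞 K) * G p) := by
      rw [nsmul_eq_mul]
      linear_combination (-(G p)) * hab'
    rw [hfin]
    exact (Q ^ e p * I).add_mem ((Q ^ e p * I).mul_mem_left _ hcp)
      (Ideal.mul_mem_mul hpQ' (I.mul_mem_left _ (hMI _ (hGM p hpS))))
  refine ⟨∑ p ∈ m.primeFactors, c p • G p, hg, ?_, ?_⟩
  · intro p hpp hp3 hpm Q hQ hpQ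
    have h := key p (Nat.mem_primeFactors.2 ⟨hpp, hpm, hm⟩) Q hQ hpQ
    have he : e p = 1 := if_neg (by omega)
    rw [he, pow_one] at h
    exact h
  · intro h2m Q hQ h2Q
    have h := key 2 (Nat.mem_primeFactors.2 ⟨Nat.prime_two, h2m, hm⟩) Q hQ
      (by exact_mod_cast h2Q)
    exact h

/-- Every subgroup which generates `I` contains, for every `n`, a generator modulo `n` of an ideal
between `8 I` and `I`. -/
theorem gen_any (K : Type*) [Field K] [NumberField K] (hK : Module.finrank ℚ K = 3)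
    (I : Ideal (𝓞 K)) (hI : I ≠ ⊥) (n : ℕ) (hn : n ≠ 0) (M : AddSubgroup (𝓞 K))
    (hM : Ideal.span (M : Set (𝓞 K)) = I) :
    ∃ g ∈ M, ∃ I' : Ideal (𝓞 K), I' ≤ I ∧ (∀ y ∈ I, (8 : 𝓞 K) * y ∈ I') ∧ g ∈ I' ∧
      ∀ y ∈ I', ∃ z : 𝓞 K, ∃ y' ∈ I', y = g * z + (n : 𝓞 K) * y' := by
  classical
  have hMI : ∀ x ∈ M, x ∈ I := by
    intro x hx
    rw [← hM]
    exact Ideal.subset_span hx
  have hn16 : 16 * n ≠ 0 := by positivity
  obtain ⟨g, hgM, hodd, htwo⟩ := genAny_avoid K hK I hI (16 * n) hn16 M hM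
  have hgI := hMI g hgM
  have h2dvd : 2 ∣ 16 * n := ⟨8 * n, by ring⟩
  set I' : Ideal (𝓞 K) := Ideal.span {g} ⊔ Ideal.span {((16 * n : ℕ) : 𝓞 K)} * I with hI'
  have hle : I' ≤ I := by
    rw [hI']
    refine sup_le ?_ Ideal.mul_le_right
    rw [Ideal.span_singleton_le_iff_mem]
    exact hgI
  have hgI' : g ∈ I' := by
    rw [hI']
    exact Ideal.mem_sup_left (Ideal.mem_span_singleton_self _)
  obtain ⟨D, hD⟩ := Ideal.dvd_iff_le.2 hle
  -- `16 n` is in `D`
  have hnD : Ideal.span {((16 * n : ℕ) : 𝓞 K)} ≤ D := by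
    have h2 : I * Ideal.span {((16 * n : ℕ) : 𝓞 K)} ≤ I * D := by
      rw [← hD, mul_comm, hI']
      exact le_sup_right
    have h3 : I * D ∣ I * Ideal.span {((16 * n : ℕ) : 𝓞 K)} := Ideal.dvd_iff_le.2 h2
    exact Ideal.dvd_iff_le.1 ((mul_dvd_mul_iff_left hI).1 h3)
  have hcast0 : ((16 * n : ℕ) : 𝓞 K) ≠ 0 := Nat.cast_ne_zero.2 hn16
  have hD0 : D ≠ 0 := by
    intro h
    rw [h] at hnD
    have := hnD (Ideal.mem_span_singleton_self _)
    exact hcast0 ((Submodule.mem_bot (𝓞 K)).1 this)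
  have hgQ : ∀ (Q : Ideal (𝓞 K)) (k : ℕ), Q ^ k ∣ D → g ∈ Q ^ k * I := by
    intro Q k hk
    have h1 : g ∈ I * D := by
      rw [← hD]
      exact hgI'
    rw [mul_comm]
    exact Ideal.mul_mono_right (Ideal.dvd_iff_le.1 hk) h1
  have h80 : (Ideal.span {(8 : 𝓞 K)} : Ideal (𝓞 K)) ≠ 0 := by
    intro h
    have h1 : (8 : 𝓞 K) = 0 := by
      have h2 : (8 : 𝓞 K) ∈ (Ideal.span {(8 : 𝓞 K)} : Ideal (𝓞 K)) :=
        Ideal.mem_span_singleton_self _
      rw [h] at h2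
      exact (Submodule.mem_bot (𝓞 K)).1 h2
    norm_num at h1
  have hdvd8 : D ∣ Ideal.span {(8 : 𝓞 K)} := by
    rw [UniqueFactorizationMonoid.dvd_iff_emultiplicity_le hD0]
    intro Q hQ
    have hQP : Prime Q := hQ
    have hQprime : Q.IsPrime := Ideal.isPrime_of_prime hQP
    refine ENat.forall_natCast_le_iff_le.1 (fun k hk => ?_)
    rw [← pow_dvd_iff_le_emultiplicity] at hk ⊢
    rcases Nat.eq_zero_or_pos k with h0 | hpos
    · subst h0
      rw [pow_zero]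
      exact one_dvd _
    · have hQD : Q ∣ D := (dvd_pow_self Q hpos.ne').trans hk
      have hnQ : ((16 * n : ℕ) : 𝓞 K) ∈ Q :=
        Ideal.dvd_iff_le.1 hQD (hnD (Ideal.mem_span_singleton_self _))
      obtain ⟨p, hpp, hpn, hpQ⟩ := genAny_prime_mem Q hQprime (16 * n) hn16 hnQ
      by_cases hp2 : p = 2
      · subst hp2
        have h2Q : (2 : 𝓞 K) ∈ Q := by exact_mod_cast hpQ
        have hk3 : k ≤ 3 := by
          by_contra hk4
          have hk4' : 4 ≤ k := by omega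
          exact htwo h2dvd Q hQprime h2Q (hgQ Q 4 ((pow_dvd_pow Q hk4').trans hk))
        have h8 : (Ideal.span {(8 : 𝓞 K)} : Ideal (𝓞 K)) = Ideal.span {(2 : 𝓞 K)} ^ 3 := by
          rw [Ideal.span_singleton_pow]
          norm_num
        rw [h8]
        refine (pow_dvd_pow Q hk3).trans (pow_dvd_pow_of_dvd ?_ 3)
        rw [Ideal.dvd_iff_le, Ideal.span_singleton_le_iff_mem]
        exact h2Q
      · exfalso
        have hp3 : 3 ≤ p := by
          have := hpp.two_le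
          omega
        have h1 := hgQ Q 1 (by rw [pow_one]; exact hQD)
        rw [pow_one] at h1
        exact hodd p hpp hp3 hpn Q hQprime hpQ h1
  have h8mem : ∀ y ∈ I, (8 : 𝓞 K) * y ∈ I' := by
    intro y hy
    rw [hD, mul_comm (8 : 𝓞 K) y]
    exact Ideal.mul_mem_mul hy (Ideal.dvd_iff_le.1 hdvd8 (Ideal.mem_span_singleton_self _))
  refine ⟨g, hgM, I', hle, h8mem, hgI', ?_⟩
  intro y hy
  rw [hI'] at hy
  obtain ⟨u, hu, v, hv, rfl⟩ := Submodule.mem_sup.1 hy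
  obtain ⟨z, rfl⟩ := Ideal.mem_span_singleton'.1 hu
  obtain ⟨w, hw, rfl⟩ := Ideal.mem_span_singleton_mul.1 hv
  refine ⟨z, 8 * (2 * w), h8mem _ (I.mul_mem_left _ hw), ?_⟩
  push_cast
  ring

private theorem genAny_norm (K : Type*) [Field K] [NumberField K] (hK : Module.finrank ℚ K = 3)
    (n : ℕ) : Ideal.absNorm (Ideal.span {(n : 𝓞 K)}) = n ^ 3 := by
  rw [Ideal.absNorm_span_singleton]
  have h1 : Algebra.norm ℤ ((n : ℤ) : 𝓞 K) = (n : ℤ) ^ 3 := by
    have h2 := Algebra.norm_algebraMap_of_basis (RingOfIntegers.basis K) (n : ℤ)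
    rw [← Module.finrank_eq_card_basis (RingOfIntegers.basis K), RingOfIntegers.rank, hK] at h2
    rw [← h2]
    rfl
  have h3 : ((n : ℕ) : 𝓞 K) = ((n : ℤ) : 𝓞 K) := by push_cast; rfl
  rw [h3, h1, Int.natAbs_pow, Int.natAbs_natCast]

/-- The norm of an ideal between `8 I` and `I`. -/
theorem absNorm_between (K : Type*) [Field K] [NumberField K] (hK : Module.finrank ℚ K = 3)
    (I I' : Ideal (𝓞 K)) (hI : I ≠ ⊥) (h : ∀ y ∈ I, (8 : 𝓞 K) * y ∈ I') :
    I' ≠ ⊥ ∧ Ideal.absNorm I' ≤ 512 * Ideal.absNorm I := by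
  have hle : Ideal.span {((8 : ℕ) : 𝓞 K)} * I ≤ I' := by
    intro x hx
    obtain ⟨w, hw, rfl⟩ := Ideal.mem_span_singleton_mul.1 hx
    have := h w hw
    exact_mod_cast this
  have hI0 : Ideal.absNorm I ≠ 0 := fun h => hI (Ideal.absNorm_eq_zero_iff.1 h)
  have hnorm : Ideal.absNorm (Ideal.span {((8 : ℕ) : 𝓞 K)} * I) = 512 * Ideal.absNorm I := by
    rw [map_mul, genAny_norm K hK]
    norm_num
  have hdvd : Ideal.absNorm I' ∣ 512 * Ideal.absNorm I := by
    rw [← hnorm]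
    exact map_dvd Ideal.absNorm (Ideal.dvd_iff_le.2 hle)
  have hpos : 0 < 512 * Ideal.absNorm I := by positivity
  refine ⟨?_, Nat.le_of_dvd hpos hdvd⟩
  rintro rfl
  rw [Ideal.absNorm_bot] at hdvd
  exact hpos.ne' (Nat.eq_zero_of_zero_dvd hdvd)

end Pool.Agent.MP_ca7d12_nt
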