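import Pool.Agent.Lib.MP_ca7d12_nt.G.Defs
import Pool.Agent.Lib.MP_ca7d12_nt.T.IndexLL

set_option autoImplicit false

namespace Pool.Agent.MP_ca7d12_nt

open NumberField

private theorem indexG_norm (K : Type*) [Field K] [NumberField K] (hK : Module.finrank ℚ K = 3)
    (n : ℕ) : Ideal.absNorm (Ideal.span {(n : 𝓞 K)}) = n ^ 3 := by
  rw [Ideal.absNorm_span_singleton]
  have h1 : Algebra.norm ℤ ((n : ℤ) : 𝓞 K) = (n : ℤ) ^ 3 := by
    have h2 := Algebra.norm_algebraMap_of_basis (RingOfIntegers.basis K) (n : ℤ)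
    rw [← Module.finrank_eq_card_basis (RingOfIntegers.basis K), RingOfIntegers.rank, hK] at h2
    rw [← h2]
    rfl
  have h3 : ((n : ℕ) : 𝓞 K) = ((n : ℤ) : 𝓞 K) := by push_cast; rfl
  rw [h3, h1, Int.natAbs_pow, Int.natAbs_natCast]

private theorem indexG_small {n c c' : ℕ} (hc : c < n) (hc' : c' < n)
    (h : (n : ℤ) ∣ (c' : ℤ) - c) : c = c' := by
  have h3 : |(c' : ℤ) - c| < n := by
    rw [abs_lt]
    omega
  have h8 := Int.eq_zero_of_abs_lt_dvd h h3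
  omega

/-- The index of `LL` with `a = 1`, `b = s`, `n = s f`. (Same proof as `index_LL` in
`T/IndexLL.lean`.) -/
theorem index_G (K : Type*) [Field K] [NumberField K] (hK : Module.finrank ℚ K = 3)
    (I : Ideal (𝓞 K)) (hI : I ≠ ⊥) (n s f : ℕ) (hn : n ≠ 0) (hf : f ≠ 0) (g v : 𝓞 K)
    (hgen : ∀ y ∈ I, ∃ z : 𝓞 K, ∃ y' ∈ I, y = g * z + (n : 𝓞 K) * y')
    (hind : ∀ x y : ℤ, (n : 𝓞 K) ∣ (x : 𝓞 K) + (s : 𝓞 K) * (y : 𝓞 K) * v →
      (n : ℤ) ∣ x ∧ (f : ℤ) ∣ y) :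
    (LL K I n g v 1 s).index ≠ 0 ∧
      (LL K I n g v 1 s).index * f ≤ Ideal.absNorm I * n ^ 2 := by
  classical
  set J : Ideal (𝓞 K) := Ideal.span {(n : 𝓞 K)} * I with hJ
  have hmem : ∀ x, x ∈ J ↔ ∃ z ∈ I, (n : 𝓞 K) * z = x := fun x => by
    rw [hJ, Ideal.mem_span_singleton_mul]
  have hJidx : (Submodule.toAddSubgroup J).index = n ^ 3 * Ideal.absNorm I := by
    have h1 : (Submodule.toAddSubgroup J).index = Ideal.absNorm J := rfl
    rw [h1, hJ, map_mul, indexG_norm K hK]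
  have hI0 : Ideal.absNorm I ≠ 0 := fun h => hI (Ideal.absNorm_eq_zero_iff.1 h)
  have hle : Submodule.toAddSubgroup J ≤ LL K I n g v 1 s := by
    intro x hx
    obtain ⟨z, hz, rfl⟩ := (hmem x).1 hx
    exact ⟨0, 0, z, hz, by push_cast; ring⟩
  have hmul := AddSubgroup.relIndex_mul_index hle
  rw [hJidx] at hmul
  have hne : (Submodule.toAddSubgroup J).relIndex (LL K I n g v 1 s) *
      (LL K I n g v 1 s).index ≠ 0 := by
    rw [hmul]
    exact mul_ne_zero (pow_ne_zero _ hn) hI0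
  have hne1 := left_ne_zero_of_mul hne
  have hne2 := right_ne_zero_of_mul hne
  refine ⟨hne2, ?_⟩
  have hin : ∀ c t : ℤ, g * (((1 : ℕ) : 𝓞 K) * (c : 𝓞 K) + (s : 𝓞 K) * (t : 𝓞 K) * v) ∈
      LL K I n g v 1 s := fun c t => ⟨c, t, 0, I.zero_mem, by ring⟩
  let φ : Fin n × Fin f → (LL K I n g v 1 s) ⧸
      ((Submodule.toAddSubgroup J).addSubgroupOf (LL K I n g v 1 s)) := fun p =>
    QuotientAddGroup.mk ⟨_, hin (p.1 : ℕ) (p.2 : ℕ)⟩
  have hinj : Function.Injective φ := by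
    rintro ⟨c, t⟩ ⟨c', t'⟩ h
    have h1 := QuotientAddGroup.eq.1 h
    have h2 := (hmem _).1 (AddSubgroup.mem_addSubgroupOf.1 h1)
    obtain ⟨z, hz, hz2⟩ := h2
    have h3 : g * (((((c' : ℕ) - (c : ℕ) : ℤ)) : 𝓞 K) +
        (s : 𝓞 K) * ((((t' : ℕ) - (t : ℕ) : ℤ)) : 𝓞 K) * v) = (n : 𝓞 K) * z := by
      rw [hz2]
      push_cast
      ring
    have h4 := dvd_of_mul_mem K I hI n hn g hgen _ z hz h3
    obtain ⟨h5, h6⟩ := hind _ _ h4
    have h7 := indexG_small c.2 c'.2 h5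
    have h8 := indexG_small t.2 t'.2 h6
    exact Prod.ext (Fin.ext h7) (Fin.ext h8)
  have hfin : Finite ((LL K I n g v 1 s) ⧸
      ((Submodule.toAddSubgroup J).addSubgroupOf (LL K I n g v 1 s))) :=
    Nat.finite_of_card_ne_zero hne1
  have hcard : n * f ≤ (Submodule.toAddSubgroup J).relIndex (LL K I n g v 1 s) := by
    have := Nat.card_le_card_of_injective φ hinj
    rw [Nat.card_prod, Nat.card_fin, Nat.card_fin] at this
    exact this
  set R := (Submodule.toAddSubgroup J).relIndex (LL K I n g v 1 s) with hR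
  set L := (LL K I n g v 1 s).index with hL
  have h2 : n * (L * f) ≤ n * (Ideal.absNorm I * n ^ 2) := by
    calc n * (L * f) = (n * f) * L := by ring
      _ ≤ R * L := Nat.mul_le_mul_right _ hcard
      _ = n ^ 3 * Ideal.absNorm I := hmul
      _ = n * (Ideal.absNorm I * n ^ 2) := by ring
  exact Nat.le_of_mul_le_mul_left h2 (Nat.pos_of_ne_zero hn)

end Pool.Agent.MP_ca7d12_nt
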