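import Pool.Agent.Lib.MP_ca7d12_nt.G.ChebG
import Pool.Agent.Lib.MP_ca7d12_nt.G.IndexG
import Pool.Agent.Lib.MP_ca7d12_nt.T.KeyT

set_option autoImplicit false

namespace Pool.Agent.MP_ca7d12_nt

open NumberField

/-- Key lemma for all conductors `n` with `f ^ 2 ∣ n`: a subgroup `M` which contains `n I` and a
generator `g` of `I` modulo `n I` has a nonzero element of norm at most
`C ^ (1 + ω(n)) absNorm I n ^ 2 / f`. -/
theorem exists_small_G (K : Type*) [Field K] [NumberField K] (hK : Module.finrank ℚ K = 3)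
    (σ : Fin 3 → K →+* ℝ) (hσ : Function.Injective σ) :
    ∃ C : ℝ, 1 ≤ C ∧ ∀ (n f : ℕ), n ≠ 0 → f ^ 2 ∣ n → HasUnit K (n / f) f →
      ∀ (I : Ideal (𝓞 K)), I ≠ ⊥ → ∀ M : AddSubgroup (𝓞 K), (∀ x ∈ M, x ∈ I) →
      (∀ y ∈ I, (n : 𝓞 K) * y ∈ M) →
      (∃ g ∈ M, ∀ y ∈ I, ∃ z : 𝓞 K, ∃ y' ∈ I, y = g * z + (n : 𝓞 K) * y') →
      ∃ x ∈ M, x ≠ 0 ∧ ((|Algebra.norm ℤ x| : ℤ) : ℝ) * (f : ℝ) ≤
        C ^ (1 + n.primeFactors.card) * (Ideal.absNorm I : ℝ) * (n : ℝ) ^ 2 := by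
  have hR : ∀ q : ℤ, IsUnit (q : 𝓞 K) → IsUnit q := isUnit_of_isUnit_intCast K
  obtain ⟨C₀, hC₀, hout⟩ := small_outside K hK σ hσ
  refine ⟨max 110592 (64 * C₀), le_trans (by norm_num) (le_max_left _ _), ?_⟩
  rintro n f hn hfn ⟨u, cs, v, hu, hprim⟩ I hI M hMI hnM ⟨g, hgM, hgen⟩
  obtain ⟨xI, hxI, hxI0⟩ := Submodule.exists_mem_ne_zero_of_ne_bot hI
  have hgI : g ∈ I := hMI g hgM
  -- the numbers `s` and `f`
  have hf0 : f ≠ 0 := by
    rintro rfl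
    exact hn (by simpa using hfn)
  obtain ⟨e₀, he₀⟩ := hfn
  set s : ℕ := n / f with hs
  have hsf : n = s * f := by
    rw [hs, Nat.div_mul_cancel]
    exact ⟨f * e₀, by rw [he₀]; ring⟩
  have hfs : s = f * e₀ := by
    have h1 : s * f = (f * e₀) * f := by rw [← hsf, he₀]; ring
    exact Nat.eq_of_mul_eq_mul_right (Nat.pos_of_ne_zero hf0) h1
  have hs0 : s ≠ 0 := by
    intro h0
    rw [h0, zero_mul] at hsf
    exact hn hsf
  have hns : n ∣ s ^ 2 := ⟨e₀, by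
    calc s ^ 2 = s * s := by ring
      _ = s * (f * e₀) := by rw [← hfs]
      _ = (s * f) * e₀ := by ring
      _ = n * e₀ := by rw [← hsf]⟩
  have hnR : (n : 𝓞 K) = (s : 𝓞 K) * (f : 𝓞 K) := by rw [hsf]; push_cast; rfl
  have hsR : (s : 𝓞 K) ≠ 0 := Nat.cast_ne_zero.mpr hs0
  -- independence
  have hind : ∀ x y : ℤ, (n : 𝓞 K) ∣ (x : 𝓞 K) + (s : 𝓞 K) * (y : 𝓞 K) * v →
      (n : ℤ) ∣ x ∧ (f : ℤ) ∣ y := by
    rintro x y ⟨w, hw⟩
    have h1 : ((s : ℤ) : 𝓞 K) * ((f : 𝓞 K) * w - (y : 𝓞 K) * v) = (x : 𝓞 K) := by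
      rw [hnR] at hw
      push_cast
      linear_combination -hw
    obtain ⟨x', hx'⟩ := exists_int_of_mul_eq K _ (s : ℤ) x (by exact_mod_cast hs0) h1
    rw [hx'] at h1
    have h2 : x = (s : ℤ) * x' := by
      have : (((s : ℤ) * x' : ℤ) : 𝓞 K) = (x : 𝓞 K) := by push_cast at h1 ⊢; exact h1
      exact_mod_cast this.symm
    have h3 : (f : 𝓞 K) ∣ (x' : 𝓞 K) + (y : 𝓞 K) * v := ⟨w, by linear_combination -hx'⟩
    obtain ⟨h4, h5⟩ := indepS hR v f hf0 hprim x' y h3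
    refine ⟨?_, h5⟩
    rw [h2, hsf]
    push_cast
    exact mul_dvd_mul_left _ h4
  obtain ⟨hidx0, hidx⟩ := index_G K hK I hI n s f hn hf0 g v hgen hind
  set Λ : AddSubgroup (𝓞 K) := LL K I n g v 1 s with hΛ
  set Q : Finset ℕ := n.primeFactors with hQ
  have hQp : ∀ q ∈ Q, q.Prime := fun q hq => Nat.prime_of_mem_primeFactors hq
  have hQn : ∀ q ∈ Q, q ∣ n := fun q hq => Nat.dvd_of_mem_primeFactors hq
  -- the numbers `c` of elements outside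
  have hmemq : ∀ (q : ℕ) (c t : ℤ) (z : 𝓞 K), z ∈ I → (q : ℤ) ∣ c →
      g * (((1 : ℕ) : 𝓞 K) * (c : 𝓞 K) + (s : 𝓞 K) * (t : 𝓞 K) * v) + (n : 𝓞 K) * z ∈
        LL K I n g v q s := by
    rintro q c t z hz ⟨c', rfl⟩
    exact ⟨c', t, z, hz, by push_cast; ring⟩
  obtain ⟨y, hyΛ, hy0, hyq, hyN⟩ := hout Λ hidx0 Q hQp (fun q => LL K I n g v q s)
    (by
      rintro q - x ⟨c, t, z, hz, rfl⟩
      exact ⟨q * c, t, z, hz, by push_cast; ring⟩)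
    (by
      rintro q - x ⟨c, t, z, hz, rfl⟩
      exact ⟨c, q * t, q * z, I.mul_mem_left _ hz, by push_cast; ring⟩)
    (by
      rintro q hq y ⟨c, t, z, hz, rfl⟩ ξ ⟨c', t', z', hz', rfl⟩ hξ
      have hqc : ¬ (q : ℤ) ∣ c' := fun h => hξ (hmemq q c' t' z' hz' h)
      have hco : IsCoprime (q : ℤ) c' :=
        (Nat.prime_iff_prime_int.mp (hQp q hq)).coprime_iff_not_dvd.2 hqc
      obtain ⟨b, a, hab⟩ := hco
      refine ⟨a * c, ⟨b * c, t - a * c * t', z - (a * c : ℤ) * z',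
        I.sub_mem hz (I.mul_mem_left _ hz'), ?_⟩⟩
      have hab' : (b : 𝓞 K) * (q : 𝓞 K) + (a : 𝓞 K) * (c' : 𝓞 K) = 1 := by
        have := congrArg (fun z : ℤ => (z : 𝓞 K)) hab
        simpa using this
      push_cast
      linear_combination (-(g * (c : 𝓞 K))) * hab')
    (by
      by_cases hn1 : n = 1
      · refine ⟨xI, ⟨0, 0, xI, hxI, by rw [hn1]; push_cast; ring⟩, hxI0, ?_⟩
        intro q hq
        rw [hQ, hn1] at hq
        simp at hq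
      · have hgq : ∀ q ∈ Q, g ∉ LL K I n g v q s := by
          rintro q hq ⟨c, t, z, hz, hgz⟩
          have h1 : g * (1 - ((q : 𝓞 K) * (c : 𝓞 K) + (s : 𝓞 K) * (t : 𝓞 K) * v)) =
              (n : 𝓞 K) * z := by linear_combination hgz
          have h2 := dvd_of_mul_mem K I hI n hn g hgen _ z hz h1
          have h3 : (1 - ((q : 𝓞 K) * (c : 𝓞 K) + (s : 𝓞 K) * (t : 𝓞 K) * v)) =
              ((1 - (q : ℤ) * c : ℤ) : 𝓞 K) + (s : 𝓞 K) * ((-t : ℤ) : 𝓞 K) * v := by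
            push_cast
            ring
          rw [h3] at h2
          have h4 := (hind _ _ h2).1
          have h5 : (q : ℤ) ∣ 1 - (q : ℤ) * c :=
            (Int.natCast_dvd_natCast.2 (hQn q hq)).trans h4
          have h6 : (q : ℤ) ∣ 1 := by
            have := dvd_add h5 (Dvd.intro c rfl : (q : ℤ) ∣ (q : ℤ) * c)
            simpa using this
          have h7 := Int.natAbs_dvd_natAbs.2 h6
          simp only [Int.natAbs_natCast, Int.natAbs_one, Nat.dvd_one] at h7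
          exact (hQp q hq).one_lt.ne' h7
        refine ⟨g, ⟨1, 0, 0, I.zero_mem, by push_cast; ring⟩, ?_, hgq⟩
        rintro rfl
        obtain ⟨q, hqp, hqn⟩ := Nat.exists_prime_and_dvd hn1
        exact hgq q (Nat.mem_primeFactors.2 ⟨hqp, hqn, hn⟩) (AddSubgroup.zero_mem _))
  obtain ⟨c₁, t, z, hz, hyz⟩ := hyΛ
  have hc₁ : IsCoprime c₁ (n : ℤ) := by
    rw [Int.isCoprime_iff_nat_coprime]
    simp only [Int.natAbs_natCast]
    refine Nat.Coprime.symm (Nat.coprime_of_dvd ?_)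
    intro q hqp hqn hqc
    have hqQ : q ∈ Q := Nat.mem_primeFactors.2 ⟨hqp, hqn, hn⟩
    refine hyq q hqQ ?_
    rw [hyz]
    exact hmemq q c₁ t z hz (Int.natCast_dvd.2 hqc)
  have hcs : IsCoprime cs (n : ℤ) := by
    have h1 : IsCoprime cs (s : ℤ) := UnitsA.coprime_of_unit hR cs (s : ℤ) (u : 𝓞 K) v u.isUnit
      ⟨1, by rw [hu]; push_cast; ring⟩
    have h2 : (n : ℤ) ∣ (s : ℤ) ^ 2 := by exact_mod_cast hns
    exact (h1.pow_right (n := 2)).of_isCoprime_of_dvd_right h2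
  have hy : y = g * ((c₁ : 𝓞 K) + ((1 : ℤ) : 𝓞 K) * (s : 𝓞 K) * (t : 𝓞 K) * v) +
      (n : 𝓞 K) * z := by
    rw [hyz]
    push_cast
    ring
  have hyI : y ∈ I := by
    rw [hy]
    exact I.add_mem (I.mul_mem_right _ hgI) (I.mul_mem_left _ hz)
  obtain ⟨u', c', a, b, e, hfin⟩ := KeyT.unit_part u cs 1 t c₁ s n hn v g y z
    (by rw [hu]; push_cast; ring) hns hcs hc₁ hy
  have huu : ((u'⁻¹ : (𝓞 K)ˣ) : 𝓞 K) * (u' : 𝓞 K) = 1 := Units.inv_mul u'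
  refine ⟨((u'⁻¹ : (𝓞 K)ˣ) : 𝓞 K) * y, ?_, mul_ne_zero (Units.ne_zero _) hy0, ?_⟩
  · have h1 : ((u'⁻¹ : (𝓞 K)ˣ) : 𝓞 K) * y = c' • g +
        (n : 𝓞 K) * (((u'⁻¹ : (𝓞 K)ˣ) : 𝓞 K) * (a * y + b * z + e * g)) := by
      rw [zsmul_eq_mul]
      linear_combination ((u'⁻¹ : (𝓞 K)ˣ) : 𝓞 K) * hfin + (c' : 𝓞 K) * g * huu
    rw [h1]
    refine M.add_mem (M.zsmul_mem hgM c') (hnM _ (I.mul_mem_left _ ?_))
    exact I.add_mem (I.add_mem (I.mul_mem_left _ hyI) (I.mul_mem_left _ hz)) (I.mul_mem_left _ hgI)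
  · rw [map_mul, abs_mul]
    have h1 : IsUnit (Algebra.norm ℤ ((u'⁻¹ : (𝓞 K)ˣ) : 𝓞 K)) := (Units.isUnit _).map _
    rw [Int.isUnit_iff_abs_eq.mp h1, one_mul]
    set ω : ℕ := Q.card with hω
    set N : ℝ := ((|Algebra.norm ℤ y| : ℤ) : ℝ) with hN
    have hidx' : (Λ.index : ℝ) * (f : ℝ) ≤ (Ideal.absNorm I : ℝ) * (n : ℝ) ^ 2 := by
      exact_mod_cast hidx
    have hA : (1 : ℝ) ≤ 110592 := by norm_num
    set C : ℝ := max 110592 (64 * C₀) with hC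
    have hC1 : (0 : ℝ) ≤ C := le_trans (by norm_num) (le_max_left _ _)
    have hB : C₀ * (4 * 48 ^ ω : ℝ) ^ 3 ≤ C ^ (1 + ω) := by
      calc C₀ * (4 * 48 ^ ω : ℝ) ^ 3 = (64 * C₀) * (110592 : ℝ) ^ ω := by
            have : (110592 : ℝ) = 48 ^ 3 := by norm_num
            rw [this, ← pow_mul, mul_pow, ← pow_mul]
            ring
        _ ≤ C * C ^ ω := by
            refine mul_le_mul (le_max_right _ _)
              (pow_le_pow_left₀ (by norm_num) (le_max_left _ _) _) (by positivity) hC1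
        _ = C ^ (1 + ω) := by ring
    calc N * (f : ℝ) ≤ (C₀ * (4 * 48 ^ ω : ℝ) ^ 3 * (Λ.index : ℝ)) * (f : ℝ) :=
          mul_le_mul_of_nonneg_right hyN (Nat.cast_nonneg _)
      _ = (C₀ * (4 * 48 ^ ω : ℝ) ^ 3) * ((Λ.index : ℝ) * (f : ℝ)) := by ring
      _ ≤ C ^ (1 + ω) * ((Ideal.absNorm I : ℝ) * (n : ℝ) ^ 2) :=
          mul_le_mul hB hidx' (by positivity) (by positivity)
      _ = _ := by ring

end Pool.Agent.MP_ca7d12_nt
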