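import Pool.Agent.Lib.MP_ca7d12_nt.G.Defs

set_option autoImplicit false

namespace Pool.Agent.MP_ca7d12_nt

open NumberField
open scoped Pointwise

/-- At most three primes lie above a prime number in a cubic field. -/
theorem card_primes_le (K : Type*) [Field K] [NumberField K] (hK : Module.finrank ℚ K = 3)
    (p : ℕ) (hp : p.Prime) : ∃ T : Finset (Ideal (𝓞 K)), T.card ≤ 3 ∧
      ∀ Q : Ideal (𝓞 K), Q.IsPrime ∧ (p : 𝓞 K) ∈ Q ↔ Q ∈ T := by
  classical
  have hP0 : (p : 𝓞 K) ≠ 0 := by exact_mod_cast hp.ne_zero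
  have hbot : Ideal.span {(p : 𝓞 K)} ≠ ⊥ := by
    rw [Ne, Ideal.span_singleton_eq_bot]
    exact hP0
  have hd : Module.finrank ℤ (𝓞 K) = 3 := by
    rw [RingOfIntegers.rank, hK]
  have hnorm : Ideal.absNorm (Ideal.span {(p : 𝓞 K)}) = p ^ 3 := by
    rw [Ideal.absNorm_span_singleton]
    have h1 : Algebra.norm ℤ (p : 𝓞 K) = (p : ℤ) ^ 3 := by
      have h2 := Algebra.norm_algebraMap (R := ℤ) (S := 𝓞 K) (p : ℤ)
      rw [← hd, ← h2]
      congr 1
      simp
    rw [h1]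
    exact_mod_cast Int.natAbs_natCast (p ^ 3)
  refine ⟨(UniqueFactorizationMonoid.normalizedFactors (Ideal.span {(p : 𝓞 K)})).toFinset, ?_, ?_⟩
  · refine (Multiset.toFinset_card_le _).trans ?_
    have key : ∀ m : Multiset (Ideal (𝓞 K)), (∀ Q ∈ m, p ∣ Ideal.absNorm Q) →
        p ^ Multiset.card m ∣ Ideal.absNorm m.prod := by
      intro m
      induction m using Multiset.induction_on with
      | empty => intro _; simp
      | cons Q m ih =>
        intro h
        rw [Multiset.card_cons, Multiset.prod_cons, map_mul, pow_succ, mul_comm]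
        exact mul_dvd_mul (h Q (Multiset.mem_cons_self _ _))
          (ih fun Q' hQ' => h Q' (Multiset.mem_cons_of_mem hQ'))
    have h1 := key (UniqueFactorizationMonoid.normalizedFactors (Ideal.span {(p : 𝓞 K)})) (by
      intro Q hQ
      rw [Ideal.mem_normalizedFactors_iff hbot] at hQ
      obtain ⟨hQ, hle⟩ := hQ
      have h2 : Ideal.absNorm Q ∣ p ^ 3 := by
        rw [← hnorm]
        exact Ideal.absNorm_dvd_absNorm_of_le hle
      obtain ⟨k, _, hk⟩ := (Nat.dvd_prime_pow hp).1 h2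
      have hk0 : k ≠ 0 := by
        intro h0
        rw [h0, pow_zero, Ideal.absNorm_eq_one_iff] at hk
        exact hQ.ne_top hk
      rw [hk]
      exact dvd_pow_self p hk0)
    rw [Ideal.prod_normalizedFactors_eq_self hbot, hnorm] at h1
    exact (Nat.pow_dvd_pow_iff_le_right hp.one_lt).1 h1
  · intro Q
    rw [Multiset.mem_toFinset, Ideal.mem_normalizedFactors_iff hbot,
      Ideal.span_singleton_le_iff_mem]

/-- Avoidance for odd primes: a subgroup `M` generating `I` has an element outside `Q I` for all the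
primes `Q` above `p`. -/
theorem avoid_odd (K : Type*) [Field K] [NumberField K] (hK : Module.finrank ℚ K = 3)
    (I : Ideal (𝓞 K)) (hI : I ≠ ⊥) (p : ℕ) (hp : p.Prime) (hp3 : 3 ≤ p)
    (M : AddSubgroup (𝓞 K)) (hM : Ideal.span (M : Set (𝓞 K)) = I) :
    ∃ g ∈ M, ∀ Q : Ideal (𝓞 K), Q.IsPrime → (p : 𝓞 K) ∈ Q → g ∉ Q * I := by
  classical
  obtain ⟨T, hT3, hT⟩ := card_primes_le K hK p hp
  by_contra hcon
  push Not at hcon
  set H : Ideal (𝓞 K) → AddSubgroup M := fun Q =>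
    (Q * I).toAddSubgroup.addSubgroupOf M with hH
  have hcover : ⋃ Q ∈ T, (0 : M) +ᵥ (H Q : Set M) = Set.univ := by
    rw [Set.eq_univ_iff_forall]
    intro g
    obtain ⟨Q, hQ, hPQ, hgQ⟩ := hcon g g.2
    simp only [zero_vadd, Set.mem_iUnion]
    exact ⟨Q, (hT Q).1 ⟨hQ, hPQ⟩, hgQ⟩
  -- the index is not `1` or `2`
  have hnot : ∀ Q ∈ T, ¬ ∀ g ∈ M, g ∈ Q * I := by
    intro Q hQ h
    obtain ⟨hQp, _⟩ := (hT Q).2 hQ
    have h1 : I ≤ Q * I := by
      conv_lhs => rw [← hM]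
      rw [Ideal.span_le]
      exact h
    have h2 : Q * I ∣ 1 * I := by
      rw [one_mul, Ideal.dvd_iff_le]
      exact h1
    have h3 : Q ∣ 1 := (mul_dvd_mul_iff_right (by rwa [Ne, Ideal.zero_eq_bot])).1 h2
    rw [Ideal.dvd_iff_le, Ideal.one_eq_top, top_le_iff] at h3
    exact hQp.ne_top h3
  have hidx : ∀ Q ∈ T, (((H Q).index : ℚ)⁻¹) ≤ 3⁻¹ := by
    intro Q hQ
    obtain ⟨hQp, hpQ⟩ := (hT Q).2 hQ
    have hmul : ∀ g ∈ M, ((H Q).index : 𝓞 K) * g ∈ Q * I := by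
      intro g hg
      have h1 : (H Q).index • (⟨g, hg⟩ : M) ∈ H Q := AddSubgroup.nsmul_index_mem (H Q) ⟨g, hg⟩
      have h2 : (((H Q).index • (⟨g, hg⟩ : M) : M) : 𝓞 K) ∈ Q * I := h1
      rwa [AddSubgroup.coe_nsmul, nsmul_eq_mul] at h2
    have hpmul : ∀ g ∈ M, (p : 𝓞 K) * g ∈ Q * I := by
      intro g hg
      exact Ideal.mul_mem_mul hpQ (hM ▸ Ideal.subset_span hg)
    have h1 : (H Q).index ≠ 1 := by
      intro h1
      refine hnot Q hQ fun g hg => ?_
      have h2 := hmul g hg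
      rwa [h1, Nat.cast_one, one_mul] at h2
    have h2 : (H Q).index ≠ 2 := by
      intro h2
      refine hnot Q hQ fun g hg => ?_
      have h3 := hmul g hg
      rw [h2] at h3
      have hodd : Odd p := hp.odd_of_ne_two (by omega)
      obtain ⟨k, hk⟩ := hodd
      have h4 : g = (p : 𝓞 K) * g - (k : 𝓞 K) * (((2 : ℕ) : 𝓞 K) * g) := by
        rw [hk]
        push_cast
        ring
      rw [h4]
      exact Ideal.sub_mem _ (hpmul g hg) (Ideal.mul_mem_left _ _ h3)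
    rcases Nat.eq_zero_or_pos (H Q).index with h0 | h0
    · rw [h0]
      norm_num
    · have h3 : 3 ≤ (H Q).index := by omega
      have h4 : (3 : ℚ) ≤ (H Q).index := by exact_mod_cast h3
      exact inv_anti₀ (by norm_num) h4
  have hge := AddSubgroup.one_le_sum_inv_index_of_leftCoset_cover hcover
  have hle : ∑ Q ∈ T, (((H Q).index : ℚ)⁻¹) ≤ T.card • (3 : ℚ)⁻¹ :=
    Finset.sum_le_card_nsmul T _ _ hidx
  have hT3' : (T.card : ℚ) ≤ 3 := by exact_mod_cast hT3
  rw [nsmul_eq_mul] at hle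
  have hsum : ∑ Q ∈ T, (((H Q).index : ℚ)⁻¹) = 1 := by
    refine le_antisymm ?_ hge
    refine hle.trans ?_
    calc (T.card : ℚ) * 3⁻¹ ≤ 3 * 3⁻¹ := mul_le_mul_of_nonneg_right hT3' (by norm_num)
      _ = 1 := by norm_num
  have hcard : T.card = 3 := by
    have h1 : (3 : ℚ) ≤ T.card := by
      rw [hsum] at hle
      have := mul_le_mul_of_nonneg_left hle (show (0 : ℚ) ≤ 3 by norm_num)
      calc (3 : ℚ) = 3 * 1 := by norm_num
        _ ≤ 3 * ((T.card : ℚ) * 3⁻¹) := this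
        _ = T.card := by ring
    have h2 : 3 ≤ T.card := by exact_mod_cast h1
    omega
  -- all indices are `3`
  have hfin : ∀ Q ∈ T, (H Q).FiniteIndex := by
    intro Q hQ
    refine ⟨fun h0 => ?_⟩
    have h1 : ∑ Q' ∈ T, (((H Q').index : ℚ)⁻¹) < ∑ _Q' ∈ T, (3 : ℚ)⁻¹ := by
      refine Finset.sum_lt_sum hidx ⟨Q, hQ, ?_⟩
      rw [h0]
      norm_num
    rw [hsum, Finset.sum_const, hcard, nsmul_eq_mul] at h1
    norm_num at h1
  have hdisj := AddSubgroup.pairwiseDisjoint_leftCoset_cover_of_sum_neg_index_eq_zero hcover hsum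
  obtain ⟨Q, hQ, Q', hQ', hne⟩ := Finset.one_lt_card.1 (show 1 < T.card by omega)
  have h1 := hdisj (Finset.mem_coe.2 (Finset.mem_filter.2 ⟨hQ, hfin Q hQ⟩))
    (Finset.mem_coe.2 (Finset.mem_filter.2 ⟨hQ', hfin Q' hQ'⟩)) hne
  have h2 : (0 : M) ∈ (0 : M) +ᵥ (H Q : Set M) := by
    rw [zero_vadd]
    exact (H Q).zero_mem
  have h3 : (0 : M) ∈ (0 : M) +ᵥ (H Q' : Set M) := by
    rw [zero_vadd]
    exact (H Q').zero_mem
  exact (Set.disjoint_left.1 h1) h2 h3

end Pool.Agent.MP_ca7d12_nt
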