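import Mathlib

set_option autoImplicit false

namespace Pool.Agent.MP_ca7d12_nt

theorem sieve_pow (w : ℕ) : 2 * w + 1 ≤ 3 ^ w := by
  induction w with
  | zero => simp
  | succ v ih =>
    rw [pow_succ]
    omega

theorem sieve_card_le_one {q M0 J : ℕ} (hq : q.Prime) (hM : ¬ q ∣ M0) (hJ : J < q) (r : ℤ) :
    ((Finset.Icc 1 J).filter fun j : ℕ => (q : ℤ) ∣ ((M0 * j : ℕ) : ℤ) - r).card ≤ 1 := by
  refine Finset.card_le_one.2 fun a ha b hb => ?_
  rw [Finset.mem_filter, Finset.mem_Icc] at ha hb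
  have h1 : (q : ℤ) ∣ (M0 : ℤ) * ((a : ℤ) - b) := by
    have h2 := dvd_sub ha.2 hb.2
    have h3 : ((M0 * a : ℕ) : ℤ) - r - (((M0 * b : ℕ) : ℤ) - r) = (M0 : ℤ) * ((a : ℤ) - b) := by
      push_cast
      ring
    rwa [h3] at h2
  have hq' : Prime (q : ℤ) := Nat.prime_iff_prime_int.1 hq
  rcases hq'.dvd_or_dvd h1 with h | h
  · exact absurd (Int.natCast_dvd_natCast.1 h) hM
  · have h4 : (a : ℤ) - b = 0 := by
      refine Int.eq_zero_of_abs_lt_dvd h ?_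
      rw [abs_lt]
      constructor <;> omega
    omega

/-- A small positive integer avoiding two nonzero residue classes modulo each prime of `Q`. -/
theorem sieve (Q : Finset ℕ) (hQ : ∀ q ∈ Q, q.Prime) (r : ℕ → ℤ)
    (hr : ∀ q ∈ Q, ¬ ((q : ℤ) ∣ r q)) :
    ∃ k : ℕ, 0 < k ∧ k ≤ 4 * 48 ^ Q.card ∧
      ∀ q ∈ Q, ¬ ((q : ℤ) ∣ (k : ℤ) - r q) ∧ ¬ ((q : ℤ) ∣ (k : ℤ) + r q) := by
  classical
  set w := Q.card with hw
  set J := 2 * w + 1 with hJ
  set M0 := ∏ q ∈ Q.filter (fun q => q ≤ J), q with hM0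
  have hM0pos : 0 < M0 := Finset.prod_pos fun q hq => (hQ q (Finset.mem_filter.1 hq).1).pos
  have hM0le : M0 ≤ 4 ^ J := by
    refine le_trans ?_ (primorial_le_four_pow J)
    unfold primorial
    refine Finset.prod_le_prod_of_subset_of_one_le' ?_ ?_
    · intro q hq
      rw [Finset.mem_filter] at hq ⊢
      exact ⟨Finset.mem_range.2 (Nat.lt_succ_of_le hq.2), hQ q hq.1⟩
    · intro q hq _
      exact (Finset.mem_filter.1 hq).2.one_lt.le
  have hcop : ∀ q ∈ Q, J < q → ¬ q ∣ M0 := by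
    intro q hq hlt hdvd
    obtain ⟨p, hp, hpd⟩ := (Nat.prime_iff.1 (hQ q hq)).exists_mem_finset_dvd hdvd
    rw [Finset.mem_filter] at hp
    have h1 := (Nat.prime_dvd_prime_iff_eq (hQ q hq) (hQ p hp.1)).1 hpd
    omega
  let B : ℕ → Finset ℕ := fun q => (Finset.Icc 1 J).filter fun j : ℕ =>
    (q : ℤ) ∣ ((M0 * j : ℕ) : ℤ) - r q ∨ (q : ℤ) ∣ ((M0 * j : ℕ) : ℤ) + r q
  have hB : ∀ q ∈ Q.filter (fun q => J < q), (B q).card ≤ 2 := by
    intro q hq
    rw [Finset.mem_filter] at hq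
    have h1 := sieve_card_le_one (hQ q hq.1) (hcop q hq.1 hq.2) hq.2 (r q)
    have h2 := sieve_card_le_one (hQ q hq.1) (hcop q hq.1 hq.2) hq.2 (-r q)
    have h3 : B q = ((Finset.Icc 1 J).filter fun j : ℕ => (q : ℤ) ∣ ((M0 * j : ℕ) : ℤ) - r q) ∪
        ((Finset.Icc 1 J).filter fun j : ℕ => (q : ℤ) ∣ ((M0 * j : ℕ) : ℤ) - -r q) := by
      show (Finset.Icc 1 J).filter _ = _
      rw [Finset.filter_or]
      simp only [sub_neg_eq_add]
    rw [h3]
    exact (Finset.card_union_le _ _).trans (by omega)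
  have hcard : ((Q.filter (fun q => J < q)).biUnion B).card < (Finset.Icc 1 J).card := by
    have h1 : ((Q.filter (fun q => J < q)).biUnion B).card ≤
        (Q.filter (fun q => J < q)).card * 2 := Finset.card_biUnion_le_card_mul _ _ _ hB
    have h2 : (Q.filter (fun q => J < q)).card ≤ w := Finset.card_filter_le _ _
    rw [Nat.card_Icc]
    omega
  obtain ⟨j, hj, hjB⟩ := Finset.exists_mem_notMem_of_card_lt_card hcard
  rw [Finset.mem_Icc] at hj
  refine ⟨M0 * j, Nat.mul_pos hM0pos (by omega), ?_, fun q hq => ?_⟩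
  · have h1 : 2 * w + 1 ≤ 3 ^ w := sieve_pow w
    calc M0 * j ≤ 4 ^ J * J := Nat.mul_le_mul hM0le hj.2
      _ ≤ 4 ^ J * 3 ^ w := Nat.mul_le_mul_left _ h1
      _ = 4 * 48 ^ w := by
        rw [hJ, pow_succ, pow_mul, show (48 : ℕ) = 4 ^ 2 * 3 by norm_num, mul_pow]
        ring
  · rcases Nat.lt_or_ge J q with h | h
    · have h1 : j ∉ B q := fun hmem => hjB
        (Finset.mem_biUnion.2 ⟨q, Finset.mem_filter.2 ⟨hq, h⟩, hmem⟩)
      have h2 : ¬ ((q : ℤ) ∣ ((M0 * j : ℕ) : ℤ) - r q ∨ (q : ℤ) ∣ ((M0 * j : ℕ) : ℤ) + r q) :=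
        fun hor => h1 (Finset.mem_filter.2 ⟨Finset.mem_Icc.2 hj, hor⟩)
      exact ⟨fun h3 => h2 (Or.inl h3), fun h3 => h2 (Or.inr h3)⟩
    · have h1 : (q : ℤ) ∣ ((M0 * j : ℕ) : ℤ) := by
        have h2 : q ∣ M0 := Finset.dvd_prod_of_mem _ (Finset.mem_filter.2 ⟨hq, h⟩)
        exact_mod_cast h2.mul_right j
      refine ⟨fun h3 => hr q hq ?_, fun h3 => hr q hq ?_⟩
      · exact (dvd_sub_right h1).1 h3
      · exact (dvd_add_right h1).1 h3

end Pool.Agent.MP_ca7d12_nt
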